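import Pool.Agent.Lib.MP_405c89_co.Tuples

set_option autoImplicit false
set_option linter.unusedSectionVars false

/-!
First entries: a good exchange towards the target exists, or there is an explicit obstruction,
which a single detour removes.
-/

namespace Pool.Agent.MP405c89

open Finset

variable {α ι κ : Type} [Fintype α] [DecidableEq α] [DecidableEq κ]

namespace Sys

variable (S : Sys α ι)

/-- all entries with index in `K0` are tight for `j` (numerical form) -/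
def Low (K0 : Finset κ) (T : κ → Finset α) (j : ι) : Prop :=
  ∑ l ∈ K0, (T l ∩ S.H j).card = K0.card * S.c j

variable {S}

theorem sum_le_low {K0 : Finset κ} {T : κ → Finset α} (hT : S.AllB T) (j : ι) :
    ∑ l ∈ K0, (T l ∩ S.H j).card ≤ K0.card * S.c j := by
  have := Finset.sum_le_card_nsmul K0 (fun l => (T l ∩ S.H j).card) (S.c j)
    (fun l _ => (hT l).2 j)
  simpa using this

theorem Low.tight {K0 : Finset κ} {T : κ → Finset α} (hT : S.AllB T) {j : ι}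
    (h : S.Low K0 T j) {l : κ} (hl : l ∈ K0) : S.Tight (T l) j := by
  by_contra hne
  have h1 := (hT l).2 j
  simp only [Tight] at hne
  have h2 : ∑ l ∈ K0, (T l ∩ S.H j).card < ∑ l ∈ K0, S.c j :=
    Finset.sum_lt_sum (fun l _ => (hT l).2 j) ⟨l, hl, by omega⟩
  simp only [Low] at h
  rw [h] at h2
  simp at h2

theorem cnt6 (A A' H : Finset α) :
    ((A' \ A) ∩ H).card + (A ∩ H).card = ((A \ A') ∩ H).card + (A' ∩ H).card := by
  rw [card_eq_ind, card_eq_ind, card_eq_ind, card_eq_ind, ← sum_add_distrib, ← sum_add_distrib]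
  refine sum_congr rfl fun e _ => ?_
  simp only [ind, mem_inter, mem_sdiff]
  by_cases h1 : e ∈ A <;> by_cases h2 : e ∈ A' <;> by_cases h3 : e ∈ H <;> simp [h1, h2, h3]

/-- same multiset union over `K` -/
def SameU (K : Finset κ) (T T' : κ → Finset α) : Prop :=
  ∀ A : Finset α, ∑ k ∈ K, (T k ∩ A).card = ∑ k ∈ K, (T' k ∩ A).card

theorem SameU.symm {K : Finset κ} {T T' : κ → Finset α} (h : SameU K T T') : SameU K T' T :=
  fun A => (h A).symm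

theorem SameU.split {K : Finset κ} {T T' : κ → Finset α} (h : SameU K T T') {k0 : κ}
    (hk0 : k0 ∈ K) (A : Finset α) :
    (T k0 ∩ A).card + ∑ k ∈ K.erase k0, (T k ∩ A).card =
      (T' k0 ∩ A).card + ∑ k ∈ K.erase k0, (T' k ∩ A).card := by
  have := h A
  rwa [← add_sum_erase K _ hk0, ← add_sum_erase K _ hk0] at this

theorem SameU.mem {K : Finset κ} {T T' : κ → Finset α} (h : SameU K T T') {k0 : κ}
    (hk0 : k0 ∈ K) {x : α} (hx : x ∈ T' k0) (hx' : x ∉ T k0) :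
    ∃ k ∈ K.erase k0, x ∈ T k := by
  by_contra hno
  push Not at hno
  have h1 := h.split hk0 {x}
  have h2 : ∑ k ∈ K.erase k0, (T k ∩ {x}).card = 0 := by
    apply Finset.sum_eq_zero
    intro k hk
    rw [Finset.inter_singleton_of_notMem (hno k hk)]; simp
  rw [h2, Finset.inter_singleton_of_notMem hx', Finset.inter_singleton_of_mem hx] at h1
  simp at h1
  omega

theorem SameU.notMem {K : Finset κ} {T T' : κ → Finset α} (h : SameU K T T') {k0 : κ}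
    (hk0 : k0 ∈ K) {y : α} (hy : y ∈ T k0) (hy' : y ∉ T' k0) :
    ∃ l ∈ K.erase k0, y ∉ T l := by
  by_contra hno
  push Not at hno
  have h1 := h.split hk0 {y}
  have h2 : ∑ k ∈ K.erase k0, (T k ∩ {y}).card = (K.erase k0).card := by
    rw [Finset.card_eq_sum_ones]
    apply Finset.sum_congr rfl
    intro k hk
    rw [Finset.inter_singleton_of_mem (hno k hk)]; simp
  have h3 : ∑ k ∈ K.erase k0, (T' k ∩ {y}).card ≤ (K.erase k0).card := by
    rw [Finset.card_eq_sum_ones]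
    apply Finset.sum_le_sum
    intro k hk
    exact (card_le_card inter_subset_right).trans (by simp)
  rw [h2, Finset.inter_singleton_of_notMem hy', Finset.inter_singleton_of_mem hy] at h1
  simp at h1
  omega

/-- the only obstruction to a good exchange -/
def Obs (S : Sys α ι) (K : Finset κ) (k0 : κ) (T T' : κ → Finset α) : Prop :=
  ∃ i1 i2 i3 i4 : ι, ∃ x1 x2 y3 y4 : α, i1 ≠ i2 ∧ i3 ≠ i4 ∧
    (S.Tight (T k0) i1 ∧ S.Tight (T k0) i2 ∧ S.Tight (T' k0) i1 ∧ S.Tight (T' k0) i2) ∧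
    (S.Low (K.erase k0) T i3 ∧ S.Low (K.erase k0) T i4 ∧
      S.Low (K.erase k0) T' i3 ∧ S.Low (K.erase k0) T' i4) ∧
    (x1 ∈ T' k0 ∧ x1 ∉ T k0 ∧ x1 ∈ S.H i1 ∧ x1 ∈ S.H i4 ∧ x1 ∉ S.H i2 ∧ x1 ∉ S.H i3) ∧
    (x2 ∈ T' k0 ∧ x2 ∉ T k0 ∧ x2 ∈ S.H i2 ∧ x2 ∈ S.H i3 ∧ x2 ∉ S.H i1 ∧ x2 ∉ S.H i4) ∧
    (y3 ∉ T' k0 ∧ y3 ∈ T k0 ∧ y3 ∈ S.H i1 ∧ y3 ∈ S.H i3 ∧ y3 ∉ S.H i2 ∧ y3 ∉ S.H i4) ∧
    (y4 ∉ T' k0 ∧ y4 ∈ T k0 ∧ y4 ∈ S.H i2 ∧ y4 ∈ S.H i4 ∧ y4 ∉ S.H i1 ∧ y4 ∉ S.H i3)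

/-- either a good exchange exists, or the obstruction holds -/
theorem good_or_obs {K : Finset κ} {k0 : κ} (hk0 : k0 ∈ K) {T T' : κ → Finset α}
    (hT : S.AllB T) (hT' : S.AllB T') (hU : SameU K T T') (hne : T k0 ≠ T' k0) :
    (∃ x ∈ T' k0 \ T k0, ∃ y ∈ T k0 \ T' k0, S.Bas (sw (T k0) y x) ∧
      ∀ j, y ∈ S.H j → x ∉ S.H j → ¬ S.Low (K.erase k0) T j) ∨ S.Obs K k0 T T' := by
  by_cases hgood : (∃ x ∈ T' k0 \ T k0, ∃ y ∈ T k0 \ T' k0, S.Bas (sw (T k0) y x) ∧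
      ∀ j, y ∈ S.H j → x ∉ S.H j → ¬ S.Low (K.erase k0) T j)
  · exact Or.inl hgood
  right
  push Not at hgood
  set X := T' k0 \ T k0 with hX
  set Y := T k0 \ T' k0 with hY
  have memX : ∀ x, x ∈ X ↔ x ∈ T' k0 ∧ x ∉ T k0 := by intro x; simp [hX]
  have memY : ∀ y, y ∈ Y ↔ y ∈ T k0 ∧ y ∉ T' k0 := by intro y; simp [hY]
  have hcardXY : X.card = Y.card := by
    have h1 := cnt6 (T k0) (T' k0) univ
    simp only [inter_univ] at h1
    have h2 := (hT k0).1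
    have h3 := (hT' k0).1
    rw [← hX, ← hY] at h1
    omega
  have hXne : 0 < X.card := by
    rw [Finset.card_pos]
    by_contra hemp
    rw [Finset.not_nonempty_iff_eq_empty] at hemp
    rw [hemp] at hcardXY
    have hYe : Y = ∅ := by
      rw [← Finset.card_eq_zero, ← hcardXY]; simp
    apply hne
    apply Finset.Subset.antisymm
    · rw [← Finset.sdiff_eq_empty_iff_subset]; exact hYe
    · rw [← Finset.sdiff_eq_empty_iff_subset]; exact hemp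
  have bad : ∀ x ∈ X, ∀ y ∈ Y, (∃ i, S.Tight (T k0) i ∧ x ∈ S.H i ∧ y ∉ S.H i) ∨
      (∃ j, S.Low (K.erase k0) T j ∧ y ∈ S.H j ∧ x ∉ S.H j) := by
    intro x hx y hy
    by_cases h1 : S.Bas (sw (T k0) y x)
    · right
      obtain ⟨j, h2, h3, h4⟩ := hgood x hx y hy h1
      exact ⟨j, h4, h2, h3⟩
    · left
      rw [bas_sw_iff (hT k0) ((memY y).1 hy).1 ((memX x).1 hx).2] at h1
      push Not at h1
      exact h1
  have luniq : ∀ y ∈ Y, ∀ j j', S.Low (K.erase k0) T j → S.Low (K.erase k0) T j' →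
      y ∈ S.H j → y ∈ S.H j' → j = j' := by
    intro y hy j j' hj hj' hyj hyj'
    obtain ⟨l, hl, hyl⟩ := hU.notMem hk0 ((memY y).1 hy).1 ((memY y).1 hy).2
    exact uniq (hT l) hyl (hj.tight hT hl) (hj'.tight hT hl) hyj hyj'
  have lcover : ∀ x ∈ X, ∀ j j', j ≠ j' → S.Low (K.erase k0) T j → S.Low (K.erase k0) T j' →
      x ∉ S.H j → x ∈ S.H j' := by
    intro x hx j j' hjj hj hj' hxj
    obtain ⟨l, hl, hxl⟩ := hU.mem hk0 ((memX x).1 hx).1 ((memX x).1 hx).2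
    exact cover (hT l) hxl hjj (hj.tight hT hl) (hj'.tight hT hl) hxj
  have g1 : ∀ i, S.Tight (T k0) i → (X ∩ S.H i).card ≤ (Y ∩ S.H i).card := by
    intro i hi
    have h1 := cnt6 (T k0) (T' k0) (S.H i)
    have h2 := (hT' k0).2 i
    simp only [Tight] at hi
    rw [← hX, ← hY] at h1
    omega
  have g2 : ∀ j, S.Low (K.erase k0) T j → (Y ∩ S.H j).card ≤ (X ∩ S.H j).card := by
    intro j hj
    have h1 := cnt6 (T k0) (T' k0) (S.H j)
    have h2 := hU.split hk0 (S.H j)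
    have h3 := sum_le_low (K0 := K.erase k0) hT' j
    simp only [Low] at hj
    rw [← hX, ← hY] at h1
    omega
  -- step 1
  have st1 : ∀ x ∈ X, ∃ i, S.Tight (T k0) i ∧ x ∈ S.H i := by
    by_contra hno
    push Not at hno
    obtain ⟨x0, hx0, hx0'⟩ := hno
    have key : ∀ y ∈ Y, ∃ j, S.Low (K.erase k0) T j ∧ y ∈ S.H j ∧ x0 ∉ S.H j := by
      intro y hy
      rcases bad x0 hx0 y hy with ⟨i, hi, hxi, -⟩ | h2
      · exact absurd hxi (hx0' i hi)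
      · exact h2
    obtain ⟨y0, hy0⟩ := Finset.card_pos.mp (hcardXY ▸ hXne)
    obtain ⟨j0, hj0, hyj0, hxj0⟩ := key y0 hy0
    have hsub : Y ⊆ S.H j0 := by
      intro y hy
      obtain ⟨j, hj, hyj, hxj⟩ := key y hy
      by_cases hjj : j = j0
      · rw [← hjj]; exact hyj
      · exact absurd (lcover x0 hx0 j j0 hjj hj hj0 hxj) hxj0
    have h2 := g2 j0 hj0
    rw [inter_eq_left.mpr hsub] at h2
    have h3 : X ∩ S.H j0 = X := eq_of_subset_of_card_le inter_subset_left (by omega)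
    rw [← h3] at hx0
    exact hxj0 (mem_inter.mp hx0).2
  -- step 2
  have st2 : ∀ y ∈ Y, ∃ j, S.Low (K.erase k0) T j ∧ y ∈ S.H j := by
    by_contra hno
    push Not at hno
    obtain ⟨y0, hy0, hy0'⟩ := hno
    have key : ∀ x ∈ X, ∃ i, S.Tight (T k0) i ∧ x ∈ S.H i ∧ y0 ∉ S.H i := by
      intro x hx
      rcases bad x hx y0 hy0 with h2 | ⟨j, hj, hyj, -⟩
      · exact h2
      · exact absurd hyj (hy0' j hj)
    obtain ⟨x0, hx0⟩ := Finset.card_pos.mp hXne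
    obtain ⟨i0, hi0, hxi0, hyi0⟩ := key x0 hx0
    have hsub : X ⊆ S.H i0 := by
      intro x hx
      obtain ⟨i, hi, hxi, hyi⟩ := key x hx
      by_cases hii : i = i0
      · rw [← hii]; exact hxi
      · exact absurd (cover (hT k0) ((memY y0).1 hy0).1 hii hi hi0 hyi) hyi0
    have h2 := g1 i0 hi0
    rw [inter_eq_left.mpr hsub] at h2
    have h3 : Y ∩ S.H i0 = Y := eq_of_subset_of_card_le inter_subset_left (by omega)
    rw [← h3] at hy0
    exact hyi0 (mem_inter.mp hy0).2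
  have bad' : ∀ x ∈ X, ∀ y ∈ Y, ∀ i j, S.Tight (T k0) i → x ∈ S.H i →
      S.Low (K.erase k0) T j → y ∈ S.H j → y ∈ S.H i → x ∉ S.H j := by
    intro x hx y hy i j hi hxi hj hyj hyi hxj
    rcases bad x hx y hy with ⟨i', hi', hxi', hyi'⟩ | ⟨j', hj', hyj', hxj'⟩
    · have : i' = i := uniq (hT k0) ((memX x).1 hx).2 hi' hi hxi' hxi
      rw [this] at hyi'
      exact hyi' hyi
    · have : j' = j := luniq y hy j' j hj' hj hyj' hyj
      rw [this] at hxj'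
      exact hxj' hxj
  obtain ⟨x1, hx1⟩ := Finset.card_pos.mp hXne
  obtain ⟨i1, hi1, hx11⟩ := st1 x1 hx1
  obtain ⟨y3, hy3⟩ := Finset.card_pos.mp (show 0 < (Y ∩ S.H i1).card by
    have h1 := g1 i1 hi1
    have h2 : 1 ≤ (X ∩ S.H i1).card := card_pos_of_mem (e := x1) (by simp [hx1, hx11])
    omega)
  rw [mem_inter] at hy3
  obtain ⟨hy3, hy31⟩ := hy3
  obtain ⟨i3, hi3, hy33⟩ := st2 y3 hy3
  have hx13 : x1 ∉ S.H i3 := bad' x1 hx1 y3 hy3 i1 i3 hi1 hx11 hi3 hy33 hy31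
  obtain ⟨x2, hx2⟩ := Finset.card_pos.mp (show 0 < (X ∩ S.H i3).card by
    have h1 := g2 i3 hi3
    have h2 : 1 ≤ (Y ∩ S.H i3).card := card_pos_of_mem (e := y3) (by simp [hy3, hy33])
    omega)
  rw [mem_inter] at hx2
  obtain ⟨hx2, hx23⟩ := hx2
  obtain ⟨i2, hi2, hx22⟩ := st1 x2 hx2
  have hy32 : y3 ∉ S.H i2 := fun hh => bad' x2 hx2 y3 hy3 i2 i3 hi2 hx22 hi3 hy33 hh hx23
  have h12 : i1 ≠ i2 := by rintro rfl; exact hy32 hy31
  obtain ⟨y4, hy4⟩ := Finset.card_pos.mp (show 0 < (Y ∩ S.H i2).card by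
    have h1 := g1 i2 hi2
    have h2 : 1 ≤ (X ∩ S.H i2).card := card_pos_of_mem (e := x2) (by simp [hx2, hx22])
    omega)
  rw [mem_inter] at hy4
  obtain ⟨hy4, hy42⟩ := hy4
  obtain ⟨i4, hi4, hy44⟩ := st2 y4 hy4
  have hx24 : x2 ∉ S.H i4 := bad' x2 hx2 y4 hy4 i2 i4 hi2 hx22 hi4 hy44 hy42
  have h34 : i3 ≠ i4 := by rintro rfl; exact hx24 hx23
  have hx14 : x1 ∈ S.H i4 := lcover x1 hx1 i3 i4 h34 hi3 hi4 hx13
  have hy41 : y4 ∉ S.H i1 := fun hh => bad' x1 hx1 y4 hy4 i1 i4 hi1 hx11 hi4 hy44 hh hx14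
  have hy34 : y3 ∉ S.H i4 := fun hh => h34 (luniq y3 hy3 i3 i4 hi3 hi4 hy33 hh)
  have hy43 : y4 ∉ S.H i3 := fun hh => h34 (luniq y4 hy4 i3 i4 hi3 hi4 hh hy44)
  have hx12 : x1 ∉ S.H i2 := fun hh => h12 (uniq (hT k0) ((memX x1).1 hx1).2 hi1 hi2 hx11 hh)
  have hx21 : x2 ∉ S.H i1 := fun hh => h12 (uniq (hT k0) ((memX x2).1 hx2).2 hi1 hi2 hh hx22)
  have c1 : ∀ x ∈ X, x ∈ S.H i3 → x ∈ S.H i2 := by
    intro x hx hx3
    obtain ⟨i, hi, hxi⟩ := st1 x hx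
    have hyi : y3 ∉ S.H i := fun hh => bad' x hx y3 hy3 i i3 hi hxi hi3 hy33 hh hx3
    by_cases hii : i = i2
    · rw [← hii]; exact hxi
    · exact absurd (cover (hT k0) ((memY y3).1 hy3).1 hii hi hi2 hyi) hy32
  have c2 : ∀ x ∈ X, x ∈ S.H i4 → x ∈ S.H i1 := by
    intro x hx hx4
    obtain ⟨i, hi, hxi⟩ := st1 x hx
    have hyi : y4 ∉ S.H i := fun hh => bad' x hx y4 hy4 i i4 hi hxi hi4 hy44 hh hx4
    by_cases hii : i = i1
    · rw [← hii]; exact hxi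
    · exact absurd (cover (hT k0) ((memY y4).1 hy4).1 hii hi hi1 hyi) hy41
  have c3 : ∀ y ∈ Y, y ∈ S.H i1 → y ∈ S.H i3 := by
    intro y hy hy1
    obtain ⟨j, hj, hyj⟩ := st2 y hy
    have hxj : x1 ∉ S.H j := bad' x1 hx1 y hy i1 j hi1 hx11 hj hyj hy1
    by_cases hjj : j = i3
    · rw [← hjj]; exact hyj
    · exact absurd (lcover x1 hx1 j i3 hjj hj hi3 hxj) hx13
  have c4 : ∀ y ∈ Y, y ∈ S.H i2 → y ∈ S.H i4 := by
    intro y hy hy2
    obtain ⟨j, hj, hyj⟩ := st2 y hy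
    have hxj : x2 ∉ S.H j := bad' x2 hx2 y hy i2 j hi2 hx22 hj hyj hy2
    by_cases hjj : j = i4
    · rw [← hjj]; exact hyj
    · exact absurd (lcover x2 hx2 j i4 hjj hj hi4 hxj) hx24
  have hsubcard : ∀ (Z A B : Finset α), (∀ z ∈ Z, z ∈ A → z ∈ B) →
      (Z ∩ A).card ≤ (Z ∩ B).card := by
    intro Z A B h
    apply card_le_card
    intro z hz
    rw [mem_inter] at hz ⊢
    exact ⟨hz.1, h z hz.1 hz.2⟩
  have e1 := g1 i1 hi1
  have e2 := hsubcard Y _ _ c3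
  have e3 := g2 i3 hi3
  have e4 := hsubcard X _ _ c1
  have e5 := g1 i2 hi2
  have e6 := hsubcard Y _ _ c4
  have e7 := g2 i4 hi4
  have e8 := hsubcard X _ _ c2
  have f1 := cnt6 (T k0) (T' k0) (S.H i1)
  have f2 := cnt6 (T k0) (T' k0) (S.H i2)
  have f3 := cnt6 (T k0) (T' k0) (S.H i3)
  have f4 := cnt6 (T k0) (T' k0) (S.H i4)
  rw [← hX, ← hY] at f1 f2 f3 f4
  have s3 := hU.split hk0 (S.H i3)
  have s4 := hU.split hk0 (S.H i4)
  rw [memX] at hx1 hx2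
  rw [memY] at hy3 hy4
  refine ⟨i1, i2, i3, i4, x1, x2, y3, y4, h12, h34, ⟨hi1, hi2, ?_, ?_⟩, ⟨hi3, hi4, ?_, ?_⟩,
    ⟨hx1.1, hx1.2, hx11, hx14, hx12, hx13⟩, ⟨hx2.1, hx2.2, hx22, hx23, hx21, hx24⟩,
    ⟨hy3.2, hy3.1, hy31, hy33, hy32, hy34⟩, ⟨hy4.2, hy4.1, hy42, hy44, hy41, hy43⟩⟩
  · simp only [Tight] at hi1 ⊢; omega
  · simp only [Tight] at hi2 ⊢; omega
  · simp only [Low] at hi3 ⊢; omega
  · simp only [Low] at hi4 ⊢; omega

end Sys

end Pool.Agent.MP405c89
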