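import Pool.Agent.Lib.MP_405c89_co.Detour

set_option autoImplicit false
set_option linter.unusedSectionVars false

/-!
From matroids with stressed subsets to numerical systems.
-/

namespace Pool.Agent.MP405c89

open Set

variable {α : Type} [Fintype α]

/-- `A` is a stressed subset of `M` -/
def Stressed (M : Matroid α) (A : Set α) : Prop :=
  (∀ X Y : Set α, (M.restrict A).IsBase X → Y ⊆ (M.restrict A).E →
    Y.ncard = X.ncard → (M.restrict A).IsBase Y) ∧
  (∀ X Y : Set α, (M.contract A).IsBase X → Y ⊆ (M.contract A).E →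
    Y.ncard = X.ncard → (M.contract A).IsBase Y)

/-- independent subsets of `A` are at most as large as a basis of `A` -/
theorem ncard_le_of_indep {M : Matroid α} {A I X : Set α} (hI : M.IsBasis I A)
    (hX : M.Indep X) (hXA : X ⊆ A) : X.ncard ≤ I.ncard := by
  obtain ⟨J, hJ, hXJ⟩ := hX.subset_isBasis_of_subset hXA hI.subset_ground
  have h1 : J.ncard = I.ncard := hJ.isBase_restrict.ncard_eq_ncard_of_isBase hI.isBase_restrict
  rw [← h1]
  exact Set.ncard_le_ncard hXJ (Set.toFinite _)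

theorem indep_of_stressed {M : Matroid α} {A I : Set α} (hA : A ⊆ M.E)
    (hS : Stressed M A) (hI : M.IsBasis I A) {B0 : Set α} (hB0 : M.IsBase B0) {X : Set α}
    (hX : X ⊆ M.E) (hXA : (X ∩ A).ncard ≤ I.ncard)
    (hXA' : (X \ A).ncard + I.ncard ≤ B0.ncard) : M.Indep X := by
  obtain ⟨h1, h2⟩ := hS
  -- a basis of `A` containing `X ∩ A`
  obtain ⟨Y, hXY, hYA, hYc⟩ := Set.exists_subsuperset_card_eq (n := I.ncard)
    (show X ∩ A ⊆ A from Set.inter_subset_right) hXA
    (Set.ncard_le_ncard hI.subset (Set.toFinite _))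
  have hYb : M.IsBasis Y A := by
    have h3 := h1 I Y hI.isBase_restrict hYA hYc
    rwa [Matroid.isBase_restrict_iff] at h3
  -- a base of `M / A`
  obtain ⟨B1, hB1, hIB1⟩ := hI.indep.exists_isBase_superset
  have hB1A : B1 ∩ A = I := by
    symm
    apply hI.eq_of_subset_indep (hB1.indep.subset Set.inter_subset_left)
      (Set.subset_inter hIB1 hI.subset) Set.inter_subset_right
  have hB1u : (B1 \ A) ∪ I = B1 := by
    rw [← hB1A]
    exact Set.sdiff_union_inter B1 A
  have hind : (M.contract A).Indep (B1 \ A) := by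
    rw [hI.contract_indep_iff]
    refine ⟨?_, Set.disjoint_sdiff_right⟩
    rw [hB1u]; exact hB1.indep
  obtain ⟨J, hJ, hJs⟩ := hind.exists_isBase_superset
  have hJi := hJ.indep
  rw [hI.contract_indep_iff] at hJi
  have hB1J : B1 = J ∪ I := by
    apply hB1.eq_of_subset_indep hJi.1
    rw [← hB1u]
    exact Set.union_subset_union_left _ hJs
  have hJeq : B1 \ A = J := by
    apply Set.Subset.antisymm hJs
    intro e he
    refine ⟨?_, fun heA => Set.disjoint_left.mp hJi.2 heA he⟩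
    rw [hB1J]; exact Or.inl he
  have hJbase : (M.contract A).IsBase (B1 \ A) := by rw [hJeq]; exact hJ
  have hc1 : B1.ncard = B0.ncard := hB1.ncard_eq_ncard_of_isBase hB0
  have hc2 : (B1 ∩ A).ncard + (B1 \ A).ncard = B1.ncard :=
    Set.ncard_inter_add_ncard_sdiff_eq_ncard B1 A (Set.toFinite _)
  rw [hB1A] at hc2
  obtain ⟨Z, hXZ, hZE, hZc⟩ := Set.exists_subsuperset_card_eq (n := (B1 \ A).ncard)
    (show X \ A ⊆ M.E \ A from Set.sdiff_subset_sdiff_left hX) (by omega)
    (Set.ncard_le_ncard (Set.sdiff_subset_sdiff_left hB1.subset_ground) (Set.toFinite _))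
  have hZb := h2 (B1 \ A) Z hJbase hZE hZc
  have hZi := hZb.indep
  rw [hYb.contract_indep_iff] at hZi
  apply hZi.1.subset
  intro e he
  by_cases heA : e ∈ A
  · exact Or.inr (hXY ⟨he, heA⟩)
  · exact Or.inl (hXZ ⟨he, heA⟩)

/-- the crossing inequality for two distinct non-trivial stressed sets -/
theorem cross_stressed {M : Matroid α} {A1 A2 I1 I2 : Set α} (hA1 : A1 ⊆ M.E) (hA2 : A2 ⊆ M.E)
    (hS1 : Stressed M A1) (hS2 : Stressed M A2) (hI1 : M.IsBasis I1 A1) (hI2 : M.IsBasis I2 A2)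
    {B0 : Set α} (hB0 : M.IsBase B0) (hlt1 : I1.ncard < A1.ncard) (hlt2 : I2.ncard < A2.ncard)
    (hr1 : I1.ncard < B0.ncard) (hr2 : I2.ncard < B0.ncard) (hne : A1 ≠ A2) :
    (A1 ∩ A2).ncard + B0.ncard ≤ I1.ncard + I2.ncard := by
  have key : ∀ {A1 A2 I1 I2 : Set α}, A1 ⊆ M.E → A2 ⊆ M.E → Stressed M A1 →
      M.IsBasis I1 A1 → M.IsBasis I2 A2 → I1.ncard < B0.ncard →
      min (A1 ∩ A2).ncard I1.ncard + min (A2 \ A1).ncard (B0.ncard - I1.ncard) ≤ I2.ncard := by
    intro A1 A2 I1 I2 hA1 hA2 hS1 hI1 hI2 hr1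
    obtain ⟨X1, hX1, hX1c⟩ := Set.exists_subset_card_eq
      (show min (A1 ∩ A2).ncard I1.ncard ≤ (A1 ∩ A2).ncard from min_le_left _ _)
    obtain ⟨X2, hX2, hX2c⟩ := Set.exists_subset_card_eq
      (show min (A2 \ A1).ncard (B0.ncard - I1.ncard) ≤ (A2 \ A1).ncard from min_le_left _ _)
    have hd : Disjoint X1 X2 := by
      rw [Set.disjoint_left]
      intro e h1 h2
      exact (hX2 h2).2 (hX1 h1).1
    have hsub : X1 ∪ X2 ⊆ A2 := by
      rintro e (he | he)
      · exact (hX1 he).2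
      · exact (hX2 he).1
    have he1 : (X1 ∪ X2) ∩ A1 = X1 := by
      ext e
      constructor
      · rintro ⟨he | he, h3⟩
        · exact he
        · exact absurd h3 (hX2 he).2
      · intro he
        exact ⟨Or.inl he, (hX1 he).1⟩
    have he2 : (X1 ∪ X2) \ A1 = X2 := by
      ext e
      constructor
      · rintro ⟨he | he, h3⟩
        · exact absurd (hX1 he).1 h3
        · exact he
      · intro he
        exact ⟨Or.inr he, (hX2 he).2⟩
    have hind : M.Indep (X1 ∪ X2) := by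
      apply indep_of_stressed hA1 hS1 hI1 hB0 (hsub.trans hA2)
      · rw [he1, hX1c]; exact min_le_right _ _
      · rw [he2, hX2c]
        have := min_le_right (A2 \ A1).ncard (B0.ncard - I1.ncard)
        omega
    have h5 := ncard_le_of_indep hI2 hind hsub
    rw [Set.ncard_union_eq hd (Set.toFinite _) (Set.toFinite _), hX1c, hX2c] at h5
    exact h5
  have k1 := key hA1 hA2 hS1 hI1 hI2 hr1
  have k2 := key hA2 hA1 hS2 hI2 hI1 hr2
  rw [Set.inter_comm A2 A1] at k2
  have c1 : (A1 ∩ A2).ncard + (A1 \ A2).ncard = A1.ncard :=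
    Set.ncard_inter_add_ncard_sdiff_eq_ncard A1 A2 (Set.toFinite _)
  have c2 : (A2 ∩ A1).ncard + (A2 \ A1).ncard = A2.ncard :=
    Set.ncard_inter_add_ncard_sdiff_eq_ncard A2 A1 (Set.toFinite _)
  rw [Set.inter_comm A2 A1] at c2
  have hpos : 0 < (A1 \ A2).ncard ∨ 0 < (A2 \ A1).ncard := by
    by_contra hcon
    push Not at hcon
    obtain ⟨h1, h2⟩ := hcon
    rw [Nat.le_zero, Set.ncard_eq_zero (Set.toFinite _), Set.sdiff_eq_empty] at h1 h2
    exact hne (Set.Subset.antisymm h1 h2)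
  omega

end Pool.Agent.MP405c89
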