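import Mathlib
import Pool.Agent.Lib.MP_405c89_co.Main
import Pool.Agent.Lib.MP_405c89_co.Transfer

set_option autoImplicit false

/-!
Lifting moves of good bases to tuples, and the theorem for hypergraph data.
-/

namespace Pool.Agent.Lib.MP_405c89_co

open Finset

variable {α : Type*} [Fintype α] [DecidableEq α]
variable {ι : Type*} [DecidableEq ι]

/-- A symmetric exchange between two columns in `I`. -/
def StepI (D : SplitData α) (I : Finset ι) (T T' : ι → Finset α) : Prop :=
  ∃ i ∈ I, ∃ j ∈ I, ∃ a b, i ≠ j ∧ a ∈ T i ∧ a ∉ T j ∧ b ∈ T j ∧ b ∉ T i ∧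
    IsB D (insert b ((T i).erase a)) ∧ IsB D (insert a ((T j).erase b)) ∧
    T' = Function.update (Function.update T i (insert b ((T i).erase a))) j
      (insert a ((T j).erase b))

/-- The columns in `I` are bases with total `m`. -/
structure Inv (D : SplitData α) (I : Finset ι) (T : ι → Finset α) (m : α → ℤ) : Prop where
  base : ∀ i ∈ I, IsB D (T i)
  sum : ∀ e, ∑ i ∈ I, ind (T i) e = m e

variable {D : SplitData α}

omit [Fintype α] in
lemma stepI_inv {I : Finset ι} {T T' : ι → Finset α} {m : α → ℤ} (h : StepI D I T T')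
    (hT : Inv D I T m) : Inv D I T' m ∧ ∀ j, j ∉ I → T' j = T j := by
  obtain ⟨i, hi, j, hj, a, b, hij, ha, ha', hb, hb', B1, B2, rfl⟩ := h
  refine ⟨⟨?_, ?_⟩, ?_⟩
  · intro k hk
    by_cases h1 : k = j
    · subst h1; rw [Function.update_self]; exact B2
    · by_cases h2 : k = i
      · subst h2
        rw [Function.update_of_ne h1, Function.update_self]; exact B1
      · rw [Function.update_of_ne h1, Function.update_of_ne h2]; exact hT.base k hk
  · intro e
    rw [← hT.sum e]
    have h0 : ∀ k ∈ I, ind (Function.update (Function.update T i (insert b ((T i).erase a))) j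
        (insert a ((T j).erase b)) k) e = ind (T k) e
        + (if k = i then (-(if e = a then 1 else 0) + (if e = b then 1 else 0)) else 0)
        - (if k = j then (-(if e = a then 1 else 0) + (if e = b then 1 else 0)) else 0) := by
      intro k _
      by_cases h1 : k = j
      · subst h1
        rw [Function.update_self, ind_swap hb ha', if_neg hij.symm, if_pos rfl]
        simp only [mv]; ring
      · by_cases h2 : k = i
        · subst h2
          rw [Function.update_of_ne h1, Function.update_self, ind_swap ha hb', if_neg h1,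
            if_pos rfl]
          simp only [mv]; ring
        · rw [Function.update_of_ne h1, Function.update_of_ne h2, if_neg h1, if_neg h2]
          ring
    rw [Finset.sum_congr rfl h0, Finset.sum_sub_distrib, Finset.sum_add_distrib,
      Finset.sum_ite_eq', Finset.sum_ite_eq', if_pos hi, if_pos hj]
    ring
  · intro k hk
    have h1 : k ≠ j := by rintro rfl; exact hk hj
    have h2 : k ≠ i := by rintro rfl; exact hk hi
    rw [Function.update_of_ne h1, Function.update_of_ne h2]

omit [Fintype α] in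
lemma reach_inv {I : Finset ι} {T T' : ι → Finset α} {m : α → ℤ}
    (h : Relation.ReflTransGen (StepI D I) T T')
    (hT : Inv D I T m) : Inv D I T' m ∧ ∀ j, j ∉ I → T' j = T j := by
  induction h with
  | refl => exact ⟨hT, fun _ _ => rfl⟩
  | tail _ h ih =>
    obtain ⟨h1, h2⟩ := stepI_inv h ih.1
    exact ⟨h1, fun j hj => (h2 j hj).trans (ih.2 j hj)⟩

omit [Fintype α] in
lemma stepI_mono {I J : Finset ι} (hIJ : I ⊆ J) {T T' : ι → Finset α} (h : StepI D I T T') :
    StepI D J T T' := by
  obtain ⟨i, hi, j, hj, h'⟩ := h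
  exact ⟨i, hIJ hi, j, hIJ hj, h'⟩

omit [Fintype α] in
lemma reach_mono {I J : Finset ι} (hIJ : I ⊆ J) {T T' : ι → Finset α}
    (h : Relation.ReflTransGen (StepI D I) T T') : Relation.ReflTransGen (StepI D J) T T' := by
  induction h with
  | refl => exact Relation.ReflTransGen.refl
  | tail _ h ih => exact ih.tail (stepI_mono hIJ h)

omit [Fintype α] [DecidableEq ι] in
lemma sum_sum_ind (J : Finset ι) (T : ι → Finset α) (A : Finset α) :
    ∑ e ∈ A, ∑ k ∈ J, ind (T k) e = ∑ k ∈ J, ((T k ∩ A).card : ℤ) := by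
  rw [Finset.sum_comm]
  exact Finset.sum_congr rfl (fun k _ => sum_ind _ _)

omit [DecidableEq ι] in
lemma feas_sum (J : Finset ι) (T : ι → Finset α) (hT : ∀ k ∈ J, IsB D (T k)) :
    Feas D (J.card : ℤ) (fun e => ∑ k ∈ J, ind (T k) e) := by
  refine ⟨?_, ?_, ?_, ?_, ?_⟩
  · intro e
    exact Finset.sum_nonneg (fun k _ => ind_nonneg _ _)
  · intro e
    have : ∑ k ∈ J, ind (T k) e ≤ ∑ _k ∈ J, (1 : ℤ) := Finset.sum_le_sum (fun k _ => ind_le _ _)
    simpa using this
  · intro e he
    by_contra hne
    apply he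
    apply Finset.sum_eq_zero
    intro k hk
    exact ind_zero (fun h => hne ((hT k hk).sub h))
  · rw [Finset.sum_comm, Finset.sum_congr rfl (g := fun _ => D.r)]
    · rw [Finset.sum_const, nsmul_eq_mul]
    · intro k hk
      rw [sum_ind_univ, (hT k hk).card]
  · intro A hA
    rw [Finset.sum_comm]
    have : ∑ k ∈ J, ∑ e ∈ A, ind (T k) e ≤ ∑ _k ∈ J, D.rk A := by
      apply Finset.sum_le_sum
      intro k hk
      rw [sum_ind]
      exact (hT k hk).con A hA
    rw [Finset.sum_const, nsmul_eq_mul] at this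
    exact this

lemma pair_of_inv {I : Finset ι} {T : ι → Finset α} {m : α → ℤ} (hT : Inv D I T m) {i0 : ι}
    (hi : i0 ∈ I) : Pair D ((I.erase i0).card : ℤ) m (ind (T i0)) := by
  refine ⟨(feas_ind_iff _).2 (hT.base i0 hi), ?_⟩
  have h1 := feas_sum (D := D) (I.erase i0) T (fun k hk => hT.base k (Finset.mem_of_mem_erase hk))
  have h2 : (fun e => m e - ind (T i0) e) = (fun e => ∑ k ∈ I.erase i0, ind (T k) e) := by
    funext e
    rw [← hT.sum e, ← Finset.add_sum_erase I (fun i => ind (T i) e) hi]
    ring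
  rw [h2]
  exact h1

/-- Lifting a single move. -/
lemma lift_step {I : Finset ι} {T : ι → Finset α} {m : α → ℤ} (hT : Inv D I T m) {i0 : ι}
    (hi : i0 ∈ I) {b' : α → ℤ} (h : GoodStep D ((I.erase i0).card : ℤ) m (ind (T i0)) b') :
    ∃ T1, Relation.ReflTransGen (StepI D I) T T1 ∧ ind (T1 i0) = b' := by
  obtain ⟨x, y, hxy, rfl, _, hp⟩ := h
  have hB0 := hT.base i0 hi
  have xT : x ∈ T i0 := by
    by_contra hx
    have := hp.one.nonneg x
    simp [mv, hxy, ind_zero hx] at this
  have yT : y ∉ T i0 := by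
    intro hy
    have := hp.one.le y
    simp [mv, hxy.symm, ind_one hy] at this
  have hB' : IsB D (insert y ((T i0).erase x)) := by
    rw [← feas_ind_iff, ind_swap xT yT]
    exact hp.one
  set J := I.erase i0 with hJ
  obtain ⟨R, hR⟩ : ∃ R : α → ℤ, R = fun e => m e - ind (T i0) e := ⟨_, rfl⟩
  have hJI : J ⊆ I := Finset.erase_subset _ _
  have hTJ : Inv D J T R := by
    refine ⟨fun k hk => hT.base k (hJI hk), ?_⟩
    intro e
    rw [hR]
    simp only
    rw [← hT.sum e, ← Finset.add_sum_erase I (fun i => ind (T i) e) hi]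
    ring
  have hF : Feas D (J.card : ℤ) (mv R y x) := by
    have := hp.two
    rw [sub_mv] at this
    rw [hR]; exact this
  have Ry : 1 ≤ R y := by
    have := hF.nonneg y
    simp only [mv, hxy.symm, if_true, if_false] at this
    omega
  have Rx : R x ≤ (J.card : ℤ) - 1 := by
    have := hF.le x
    simp only [mv, hxy, if_true, if_false] at this
    omega
  have xE : x ∈ D.E := hB0.sub xT
  have yE : y ∈ D.E := hB'.sub (by simp)
  -- preparation: a column containing `y` and not `x`
  have prep : ∃ T1, Relation.ReflTransGen (StepI D J) T T1 ∧ ∃ k ∈ J, y ∈ T1 k ∧ x ∉ T1 k := by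
    have h1 : ∃ k ∈ J, y ∈ T k := by
      by_contra hn
      push Not at hn
      have := hTJ.sum y
      rw [Finset.sum_eq_zero (fun k hk => ind_zero (hn k hk))] at this
      omega
    have h2 : ∃ l ∈ J, x ∉ T l := by
      by_contra hn
      push Not at hn
      have := hTJ.sum x
      rw [Finset.sum_congr rfl (g := fun _ => (1 : ℤ)) (fun k hk => ind_one (hn k hk))] at this
      simp only [Finset.sum_const, nsmul_eq_mul, mul_one] at this
      omega
    obtain ⟨k, hk, yk⟩ := h1
    obtain ⟨l, hl, xl⟩ := h2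
    by_cases xk : x ∈ T k
    · by_cases yl : y ∈ T l
      · exact ⟨T, Relation.ReflTransGen.refl, l, hl, yl, xl⟩
      · have hkl : k ≠ l := by rintro rfl; exact xl xk
        obtain ⟨z, z1, z2, z3, z4⟩ := sym_exchange (hTJ.base k hk) (hTJ.base l hl) xk xl
        refine ⟨_, Relation.ReflTransGen.single ⟨k, hk, l, hl, x, z, hkl, xk, xl, z1, z2, z3, z4,
          rfl⟩, k, hk, ?_, ?_⟩
        · rw [Function.update_of_ne hkl, Function.update_self]
          simp [yk, hxy.symm]
        · rw [Function.update_of_ne hkl, Function.update_self]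
          have : x ≠ z := by rintro rfl; exact z2 xk
          simp [this]
    · exact ⟨T, Relation.ReflTransGen.refl, k, hk, yk, xk⟩
  obtain ⟨T1, r1, k, hk, yk, xk⟩ := prep
  obtain ⟨hT1, hT1'⟩ := reach_inv r1 hTJ
  -- fixing: moreover the exchanged column is a base
  have fix : ∃ T2, Relation.ReflTransGen (StepI D J) T1 T2 ∧ y ∈ T2 k ∧ x ∉ T2 k ∧
      IsB D (insert x ((T2 k).erase y)) := by
    by_cases hb : IsB D (insert x ((T1 k).erase y))
    · exact ⟨T1, Relation.ReflTransGen.refl, yk, xk, hb⟩
    · have h1 : ∃ A ∈ D.F, ((T1 k ∩ A).card : ℤ) = D.rk A ∧ x ∈ A ∧ y ∉ A := by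
        by_contra hn
        push Not at hn
        exact hb (isB_swap (hT1.base k hk) yk xk xE hn)
      obtain ⟨A, hA, tA, xA, yA⟩ := h1
      have h2 : ∃ l ∈ J, ((T1 l ∩ A).card : ℤ) < D.rk A := by
        by_contra hn
        push Not at hn
        have h3 := hF.con A hA
        rw [sum_mv, if_neg yA, if_pos xA] at h3
        have h4 : ∑ e ∈ A, R e = ∑ l ∈ J, ((T1 l ∩ A).card : ℤ) := by
          rw [← sum_sum_ind]
          exact Finset.sum_congr rfl (fun e _ => (hT1.sum e).symm)
        have h5 : ∑ _l ∈ J, D.rk A ≤ ∑ l ∈ J, ((T1 l ∩ A).card : ℤ) :=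
          Finset.sum_le_sum (fun l hl => hn l hl)
        rw [Finset.sum_const, nsmul_eq_mul] at h5
        omega
      obtain ⟨l, hl, tl⟩ := h2
      have hkl : k ≠ l := by rintro rfl; omega
      obtain ⟨a, b, a1, a2, a3, b1, b2, b3, s1, s2⟩ :=
        transfer (hT1.base k hk) (hT1.base l hl) hA tA tl
      have hya : y ≠ a := by rintro rfl; exact yA a3
      have hxb : x ≠ b := by rintro rfl; exact b3 xA
      have yk' : y ∈ insert b ((T1 k).erase a) := by simp [yk, hya]
      have xk' : x ∉ insert b ((T1 k).erase a) := by simp [xk, hxb]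
      refine ⟨_, Relation.ReflTransGen.single ⟨k, hk, l, hl, a, b, hkl, a1, a2, b1, b2, s1, s2,
          rfl⟩, ?_, ?_, ?_⟩
      · rw [Function.update_of_ne hkl, Function.update_self]; exact yk'
      · rw [Function.update_of_ne hkl, Function.update_self]; exact xk'
      · rw [Function.update_of_ne hkl, Function.update_self]
        apply isB_of_tight _ _ hA
        · rw [card_swap_inter yk' xk', card_swap_inter a1 b2, if_pos a3, if_neg b3, if_pos xA,
            if_neg yA]
          omega
        · intro e he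
          simp only [Finset.mem_insert, Finset.mem_erase] at he
          rcases he with rfl | ⟨_, rfl | h⟩
          · exact xE
          · exact (hT1.base l hl).sub b1
          · exact (hT1.base k hk).sub h.2
        · rw [card_swap yk' xk', card_swap a1 b2]
          exact (hT1.base k hk).card
  obtain ⟨T2, r2, yk2, xk2, hb2⟩ := fix
  obtain ⟨hT2, hT2'⟩ := reach_inv r2 hT1
  have i0J : i0 ∉ J := Finset.notMem_erase _ _
  have e0 : T2 i0 = T i0 := (hT2' i0 i0J).trans (hT1' i0 i0J)
  have hik : i0 ≠ k := by rintro rfl; exact i0J hk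
  refine ⟨Function.update (Function.update T2 i0 (insert y ((T2 i0).erase x))) k
      (insert x ((T2 k).erase y)), ?_, ?_⟩
  · refine (reach_mono hJI (r1.trans r2)).trans (Relation.ReflTransGen.single ?_)
    refine ⟨i0, hi, k, hJI hk, x, y, hik, ?_, xk2, yk2, ?_, ?_, hb2, rfl⟩
    · rw [e0]; exact xT
    · rw [e0]; exact yT
    · rw [e0]; exact hB'
  · rw [Function.update_of_ne hik, Function.update_self, e0, ind_swap xT yT]

lemma lift_reach {I : Finset ι} {T : ι → Finset α} {m : α → ℤ} (hT : Inv D I T m) {i0 : ι}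
    (hi : i0 ∈ I) {b' : α → ℤ}
    (h : Relation.ReflTransGen (GoodStep D ((I.erase i0).card : ℤ) m) (ind (T i0)) b') :
    ∃ T1, Relation.ReflTransGen (StepI D I) T T1 ∧ ind (T1 i0) = b' := by
  induction h with
  | refl => exact ⟨T, Relation.ReflTransGen.refl, rfl⟩
  | tail _ h ih =>
    obtain ⟨T1, r1, e1⟩ := ih
    rw [← e1] at h
    obtain ⟨T2, r2, e2⟩ := lift_step (reach_inv r1 hT).1 hi h
    exact ⟨T2, r1.trans r2, e2⟩

omit [Fintype α] in
lemma ind_injective {S S' : Finset α} (h : ind S = ind S') : S = S' := by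
  ext e
  have := congrFun h e
  unfold ind at this
  by_cases h1 : e ∈ S <;> by_cases h2 : e ∈ S' <;> simp [h1, h2] at this ⊢

lemma column {I : Finset ι} {T T' : ι → Finset α} {m : α → ℤ} (hT : Inv D I T m)
    (hT' : Inv D I T' m) {i0 : ι} (hi : i0 ∈ I) :
    ∃ T1, Relation.ReflTransGen (StepI D I) T T1 ∧ T1 i0 = T' i0 := by
  have h := good_connected (D := D) (q := ((I.erase i0).card : ℤ)) (by positivity)
    (pair_of_inv hT' hi) _ _ (pair_of_inv hT hi) le_rfl
  obtain ⟨T1, r1, e1⟩ := lift_reach hT hi h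
  exact ⟨T1, r1, ind_injective e1⟩

theorem white_aux (n : ℕ) : ∀ (I : Finset ι), I.card = n → ∀ (T T' : ι → Finset α) (m : α → ℤ),
    Inv D I T m → Inv D I T' m →
    ∃ T'', Relation.ReflTransGen (StepI D I) T T'' ∧ ∀ i ∈ I, T'' i = T' i := by
  induction n with
  | zero =>
    intro I hI T T' m _ _
    rw [Finset.card_eq_zero] at hI
    subst hI
    exact ⟨T, Relation.ReflTransGen.refl, fun i hi => absurd hi (Finset.notMem_empty i)⟩
  | succ n ih =>
    intro I hI T T' m hT hT'
    obtain ⟨i0, hi⟩ : I.Nonempty := by rw [← Finset.card_pos]; omega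
    obtain ⟨T1, r1, e1⟩ := column hT hT' hi
    obtain ⟨hT1, _⟩ := reach_inv r1 hT
    have hJ : (I.erase i0).card = n := by rw [Finset.card_erase_of_mem hi]; omega
    have hinv : ∀ (U : ι → Finset α), Inv D I U m →
        Inv D (I.erase i0) U (fun e => m e - ind (U i0) e) := by
      intro U hU
      refine ⟨fun k hk => hU.base k (Finset.mem_of_mem_erase hk), ?_⟩
      intro e
      rw [← hU.sum e, ← Finset.add_sum_erase I (fun i => ind (U i) e) hi]
      ring
    have h1 := hinv T1 hT1
    have h2 := hinv T' hT'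
    rw [← e1] at h2
    obtain ⟨T2, r2, e2⟩ := ih (I.erase i0) hJ T1 T' _ h1 h2
    obtain ⟨_, h3⟩ := reach_inv r2 h1
    refine ⟨T2, r1.trans (reach_mono (Finset.erase_subset _ _) r2), ?_⟩
    intro i hiI
    by_cases h4 : i = i0
    · subst h4
      rw [h3 i (Finset.notMem_erase _ _), e1]
    · exact e2 i (Finset.mem_erase.2 ⟨h4, hiI⟩)

end Pool.Agent.Lib.MP_405c89_co
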