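import Mathlib
import Pool.Agent.Lib.MP_405c89_co.Lift

set_option autoImplicit false

/-!
From the matroid formulation to the hypergraph formulation.
-/

namespace Pool.Agent.Lib.MP_405c89_co

open Finset

variable {α : Type*} [Fintype α] [DecidableEq α]

/-- Stressed sets. -/
def Stressed (M : Matroid α) (A : Set α) : Prop :=
  A ⊆ M.E ∧
    (∀ X Y : Set α, (M.restrict A).IsBase X → Y ⊆ (M.restrict A).E →
      Y.ncard = X.ncard → (M.restrict A).IsBase Y) ∧
    (∀ X Y : Set α, (M.contract A).IsBase X → Y ⊆ (M.contract A).E →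
      Y.ncard = X.ncard → (M.contract A).IsBase Y)

omit [DecidableEq α] in
lemma stressed_isBase {M : Matroid α} {A : Set α} (hA : Stressed M A) {I : Set α}
    (hI : M.IsBasis I A) {B0 : Set α} (hB0 : M.IsBase B0) {U V : Set α} (hU : U ⊆ A)
    (cU : U.ncard = I.ncard) (hV : V ⊆ M.E \ A) (cV : V.ncard + I.ncard = B0.ncard) :
    M.IsBase (V ∪ U) := by
  classical
  obtain ⟨hAE, hr, hc⟩ := hA
  have hUb : M.IsBasis U A := by
    have h1 : (M.restrict A).IsBase I := (Matroid.isBase_restrict_iff hAE).2 hI
    exact (Matroid.isBase_restrict_iff hAE).1 (hr I U h1 (by simpa using hU) cU)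
  obtain ⟨W, hW⟩ := (M.contract A).exists_isBase
  obtain ⟨hW1, hW2⟩ := hI.contract_indep_iff.1 hW.indep
  have hWI : M.IsBase (W ∪ I) := by
    obtain ⟨B, hB, hBs⟩ := hW1.exists_isBase_superset
    have : B ⊆ W ∪ I := by
      intro e he
      by_cases heA : e ∈ A
      · right
        have h1 : I = B ∩ A := hI.eq_of_subset_indep (hB.indep.subset Set.inter_subset_left)
          (Set.subset_inter (Set.subset_union_right.trans hBs) hI.subset) Set.inter_subset_right
        rw [h1]
        exact ⟨he, heA⟩
      · left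
        have h1 : (M.contract A).Indep (B \ A) := by
          rw [hI.contract_indep_iff]
          refine ⟨hB.indep.subset ?_, Set.disjoint_sdiff_right⟩
          exact Set.union_subset Set.sdiff_subset (Set.subset_union_right.trans hBs)
        have h2 : W = B \ A := hW.eq_of_subset_indep h1 (by
          intro f hf
          refine ⟨hBs (Or.inl hf), ?_⟩
          exact fun hfA => Set.disjoint_left.1 hW2 hfA hf)
        rw [h2]
        exact ⟨he, heA⟩
    have h3 : B = W ∪ I := Set.Subset.antisymm this hBs
    rw [← h3]; exact hB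
  have hd : Disjoint W I := Set.disjoint_left.2 (fun e he he' =>
    Set.disjoint_left.1 hW2 (hI.subset he') he)
  have cW : W.ncard + I.ncard = B0.ncard := by
    rw [← Set.ncard_union_eq hd (Set.toFinite _) (Set.toFinite _)]
    exact hWI.ncard_eq_ncard_of_isBase hB0
  have hVb : (M.contract A).IsBase V := hc W V hW (by simpa using hV) (by omega)
  have h4 := (hUb.contract_indep_iff.1 hVb.indep).1
  obtain ⟨B, hB, hBs⟩ := h4.exists_isBase_superset
  have hd' : Disjoint V U := Set.disjoint_left.2 (fun e he he' => (hV he).2 (hU he'))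
  have h5 : (V ∪ U).ncard = B.ncard := by
    rw [Set.ncard_union_eq hd' (Set.toFinite _) (Set.toFinite _), cU, cV]
    exact hB0.ncard_eq_ncard_of_isBase hB
  rw [Set.eq_of_subset_of_ncard_le hBs h5.ge (Set.toFinite _)]
  exact hB

omit [DecidableEq α] in
lemma indep_ncard_le {M : Matroid α} {A I J : Set α} (hI : M.IsBasis I A) (hJ : M.Indep J)
    (hJA : J ⊆ A) : J.ncard ≤ I.ncard := by
  obtain ⟨K, hK, hJK⟩ := hJ.subset_isBasis_of_subset hJA hI.subset_ground
  have h1 : K.encard = I.encard := hK.encard_eq_encard hI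
  have h2 : K.ncard = I.ncard := by rw [Set.ncard, Set.ncard, h1]
  rw [← h2]
  exact Set.ncard_le_ncard hJK (Set.toFinite _)

/-- The rank of a finset. -/
noncomputable def rkS (M : Matroid α) (A : Finset α) : ℕ :=
  (M.exists_isBasis' (A : Set α)).choose.ncard

omit [Fintype α] [DecidableEq α] in
lemma rkS_spec {M : Matroid α} {A : Finset α} {I : Set α} (hI : M.IsBasis I (A : Set α)) :
    rkS M A = I.ncard := by
  unfold rkS
  have h := (M.exists_isBasis' (A : Set α)).choose_spec
  have h1 := (Matroid.isBasis'_iff_isBasis hI.subset_ground).1 h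
  have h2 := h1.encard_eq_encard hI
  rw [Set.ncard, Set.ncard, h2]

lemma key1 {M : Matroid α} {B0 : Set α} (hB0 : M.IsBase B0) {A A' : Finset α}
    (hA : Stressed M (A : Set α)) (hA' : (A' : Set α) ⊆ M.E) {c d : ℕ} (h1 : c ≤ rkS M A)
    (h2 : c ≤ (A ∩ A').card) (h3 : d + rkS M A ≤ B0.ncard) (h4 : d ≤ (A' \ A).card) :
    c + d ≤ rkS M A' := by
  classical
  obtain ⟨I, hI⟩ := M.exists_isBasis (A : Set α) hA.1
  have rA := rkS_spec hI
  obtain ⟨E, hE⟩ : ∃ E : Finset α, (E : Set α) = M.E :=
    ⟨(Set.toFinite M.E).toFinset, Set.Finite.coe_toFinset _⟩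
  obtain ⟨U0, hU0, cU0⟩ := Finset.exists_subset_card_eq h2
  obtain ⟨V0, hV0, cV0⟩ := Finset.exists_subset_card_eq h4
  have hIA : rkS M A ≤ A.card := by
    rw [rA, ← Set.ncard_coe_finset]
    exact Set.ncard_le_ncard hI.subset (Set.toFinite _)
  obtain ⟨U, hU1, hU2, cU⟩ := Finset.exists_subsuperset_card_eq
    (hU0.trans Finset.inter_subset_left) (cU0.le.trans h1) hIA
  have hEA : B0.ncard - rkS M A ≤ (E \ A).card := by
    obtain ⟨B, hB, hIB⟩ := hI.indep.exists_isBase_superset
    have e1 : I = B ∩ A := hI.eq_of_subset_indep (hB.indep.subset Set.inter_subset_left)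
          (Set.subset_inter hIB hI.subset) Set.inter_subset_right
    have e2 : (B ∩ A).ncard + (B \ A).ncard = B.ncard :=
      Set.ncard_inter_add_ncard_sdiff_eq_ncard B A (Set.toFinite _)
    have e3 : (B \ A).ncard ≤ (E \ A).card := by
      rw [← Set.ncard_coe_finset]
      apply Set.ncard_le_ncard _ (Set.toFinite _)
      rw [Finset.coe_sdiff, hE]
      exact Set.sdiff_subset_sdiff_left hB.subset_ground
    have e4 := hB.ncard_eq_ncard_of_isBase hB0
    rw [← e1, ← rA] at e2
    omega
  have hV0' : V0 ⊆ E \ A := by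
    intro e he
    have := hV0 he
    simp only [Finset.mem_sdiff] at this ⊢
    refine ⟨?_, this.2⟩
    have h5 := hA' (show e ∈ (A' : Set α) from this.1)
    rw [← hE] at h5
    exact h5
  obtain ⟨V, hV1, hV2, cV⟩ := Finset.exists_subsuperset_card_eq
    hV0' (show V0.card ≤ B0.ncard - rkS M A by omega) hEA
  have hbase : M.IsBase ((V : Set α) ∪ (U : Set α)) := by
    apply stressed_isBase hA hI hB0 (by exact_mod_cast hU2)
    · rw [Set.ncard_coe_finset, cU, rA]
    · intro e he
      have := hV2 he
      rw [Finset.mem_sdiff] at this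
      refine ⟨?_, fun h => this.2 h⟩
      rw [← hE]; exact this.1
    · rw [Set.ncard_coe_finset, cV, rA]
      omega
  obtain ⟨J, hJ⟩ := M.exists_isBasis (A' : Set α) hA'
  have h6 : ((U0 ∪ V0 : Finset α) : Set α).ncard ≤ J.ncard := by
    apply indep_ncard_le hJ
    · apply hbase.indep.subset
      intro e he
      rw [Finset.coe_union] at he
      rcases he with he | he
      · exact Or.inr (hU1 he)
      · exact Or.inl (hV1 he)
    · intro e he
      rw [Finset.coe_union] at he
      rcases he with he | he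
      · exact (Finset.mem_inter.1 (hU0 he)).2
      · exact (Finset.mem_sdiff.1 (hV0 he)).1
  rw [Set.ncard_coe_finset, Finset.card_union_of_disjoint, cU0, cV0, ← rkS_spec hJ] at h6
  · exact h6
  · rw [Finset.disjoint_left]
    intro e he he'
    exact (Finset.mem_sdiff.1 (hV0 he')).2 (Finset.mem_inter.1 (hU0 he)).1

/-- The hypergraph data attached to a matroid. -/
noncomputable def toData (M : Matroid α) (B0 : Set α) (hB0 : M.IsBase B0) : SplitData α where
  E := (Set.toFinite M.E).toFinset
  r := (B0.ncard : ℤ)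
  F := {A | Stressed M (A : Set α) ∧ rkS M A + 1 ≤ A.card ∧ rkS M A + 1 ≤ B0.ncard}
  rk := fun A => (rkS M A : ℤ)
  inter := by
    rintro A ⟨hA, cA, rA⟩ A' ⟨hA', cA', rA'⟩ hne
    by_contra hcon
    have hcon' : rkS M A + rkS M A' < (A ∩ A').card + B0.ncard := by omega
    have e1 : (A ∩ A').card + (A \ A').card = A.card := Finset.card_inter_add_card_sdiff _ _
    have e2 : (A' ∩ A).card + (A' \ A).card = A'.card := Finset.card_inter_add_card_sdiff _ _
    rw [Finset.inter_comm] at e2
    have k1 := @key1 α _ _ M B0 hB0 A A' hA hA'.1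
      (min (rkS M A) (A ∩ A').card) (min (B0.ncard - rkS M A) (A' \ A).card)
      (min_le_left _ _) (min_le_right _ _) (by omega) (min_le_right _ _)
    have k2 := @key1 α _ _ M B0 hB0 A' A hA' hA.1
      (min (rkS M A') (A ∩ A').card) (min (B0.ncard - rkS M A') (A \ A').card)
      (min_le_left _ _) (by rw [Finset.inter_comm A' A]; exact min_le_right _ _) (by omega)
      (min_le_right _ _)
    have e3 : (A \ A').card = 0 ∧ (A' \ A).card = 0 := by
      omega
    rw [Finset.card_eq_zero, Finset.card_eq_zero, Finset.sdiff_eq_empty_iff_subset,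
      Finset.sdiff_eq_empty_iff_subset] at e3
    exact hne (Finset.Subset.antisymm e3.1 e3.2)

lemma isBase_iff {M : Matroid α} {B0 : Set α} (hB0 : M.IsBase B0)
    (h : ∀ (B0 S : Set α), M.IsBase B0 → S ⊆ M.E → S.ncard = B0.ncard →
        (M.IsBase S ∨
          ∃ (A I : Set α), A ⊆ M.E ∧
            (∀ X Y : Set α, (M.restrict A).IsBase X → Y ⊆ (M.restrict A).E →
              Y.ncard = X.ncard → (M.restrict A).IsBase Y) ∧
            (∀ X Y : Set α, (M.contract A).IsBase X → Y ⊆ (M.contract A).E →
              Y.ncard = X.ncard → (M.contract A).IsBase Y) ∧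
            M.IsBasis I A ∧ I.ncard < (S ∩ A).ncard)) (S : Finset α) :
    M.IsBase (S : Set α) ↔ IsB (toData M B0 hB0) S := by
  classical
  constructor
  · intro hS
    refine ⟨?_, ?_, ?_⟩
    · intro e he
      change e ∈ (Set.toFinite M.E).toFinset
      rw [Set.Finite.mem_toFinset]
      exact hS.subset_ground he
    · change (S.card : ℤ) = (B0.ncard : ℤ)
      rw [← Set.ncard_coe_finset, hS.ncard_eq_ncard_of_isBase hB0]
    · rintro A ⟨hA, cA, rA⟩
      change ((S ∩ A).card : ℤ) ≤ (rkS M A : ℤ)
      obtain ⟨I, hI⟩ := M.exists_isBasis (A : Set α) hA.1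
      have h1 : ((S ∩ A : Finset α) : Set α).ncard ≤ I.ncard := by
        apply indep_ncard_le hI
        · apply hS.indep.subset
          rw [Finset.coe_inter]
          exact Set.inter_subset_left
        · rw [Finset.coe_inter]
          exact Set.inter_subset_right
      rw [Set.ncard_coe_finset, ← rkS_spec hI] at h1
      exact_mod_cast h1
  · intro hS
    have hsub : (S : Set α) ⊆ M.E := by
      intro e he
      have h1 := hS.sub he
      change e ∈ (Set.toFinite M.E).toFinset at h1
      rwa [Set.Finite.mem_toFinset] at h1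
    have hcard : (S : Set α).ncard = B0.ncard := by
      have h1 := hS.card
      change (S.card : ℤ) = (B0.ncard : ℤ) at h1
      rw [Set.ncard_coe_finset]
      exact_mod_cast h1
    rcases h B0 S hB0 hsub hcard with h1 | ⟨A, I, hA, hr, hc, hI, hlt⟩
    · exact h1
    · exfalso
      obtain ⟨A', rfl⟩ : ∃ A' : Finset α, (A' : Set α) = A :=
        ⟨(Set.toFinite A).toFinset, Set.Finite.coe_toFinset _⟩
      have e1 : (S : Set α) ∩ (A' : Set α) = ((S ∩ A' : Finset α) : Set α) := by
        rw [Finset.coe_inter]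
      rw [e1, Set.ncard_coe_finset, ← rkS_spec hI] at hlt
      have e2 : (S ∩ A').card ≤ A'.card := Finset.card_le_card Finset.inter_subset_right
      have e3 : (S ∩ A').card ≤ S.card := Finset.card_le_card Finset.inter_subset_left
      rw [Set.ncard_coe_finset] at hcard
      have hmem : A' ∈ (toData M B0 hB0).F := ⟨⟨hA, hr, hc⟩, by omega, by omega⟩
      have h2 := hS.con A' hmem
      change ((S ∩ A').card : ℤ) ≤ (rkS M A' : ℤ) at h2
      omega

end Pool.Agent.Lib.MP_405c89_co
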