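import Mathlib

set_option autoImplicit false

/-!
# White's conjecture for split matroids: the exchange calculus

`Sys` is the numerical description of an elementary split matroid: rank `r`, sets `H i` with
capacities `c i`, with `|H i ∩ H j| + r ≤ c i + c j` for `i ≠ j`.  The bases are the `r`-sets `B`
with `|B ∩ H i| ≤ c i` for all `i`.
-/

namespace Pool.Agent.MP405c89

open Finset

/-- numerical description of an elementary split matroid -/
structure Sys (α ι : Type) [DecidableEq α] where
  r : ℕ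
  H : ι → Finset α
  c : ι → ℕ
  cross : ∀ i j, i ≠ j → (H i ∩ H j).card + r ≤ c i + c j

/-- indicator of membership -/
def ind {α : Type} [DecidableEq α] (A : Finset α) (e : α) : ℕ := if e ∈ A then 1 else 0

theorem card_eq_ind {α : Type} [Fintype α] [DecidableEq α] (A : Finset α) :
    A.card = ∑ e, ind A e := by
  simp [ind]

theorem card_pos_of_mem {α : Type} {A : Finset α} {e : α} (h : e ∈ A) : 1 ≤ A.card :=
  Finset.card_pos.mpr ⟨e, h⟩

/-- the set obtained from `B` by removing `y` and adding `x` -/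
def sw {α : Type} [DecidableEq α] (B : Finset α) (y x : α) : Finset α := insert x (B.erase y)

section basic
variable {α : Type} [DecidableEq α]

theorem mem_sw {B : Finset α} {y x e : α} : e ∈ sw B y x ↔ e = x ∨ (e ≠ y ∧ e ∈ B) := by
  simp [sw]

theorem card_sw_inter {B : Finset α} {y x : α} (hy : y ∈ B) (hx : x ∉ B) (A : Finset α) :
    (sw B y x ∩ A).card + ind A y = (B ∩ A).card + ind A x := by
  have hxy : x ≠ y := fun h => hx (h ▸ hy)
  have hx' : x ∉ B.erase y := fun h => hx (Finset.mem_of_mem_erase h)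
  by_cases hxA : x ∈ A <;> by_cases hyA : y ∈ A
  · have h1 : sw B y x ∩ A = insert x ((B ∩ A).erase y) := by
      ext e; simp only [mem_inter, mem_sw, mem_insert, mem_erase]
      constructor
      · rintro ⟨rfl | ⟨h1, h2⟩, h3⟩ <;> tauto
      · rintro (rfl | ⟨h1, h2, h3⟩) <;> tauto
    rw [h1, card_insert_of_notMem (by simp [hx]), card_erase_of_mem (by simp [hy, hyA])]
    have : 0 < (B ∩ A).card := Finset.card_pos.mpr ⟨y, by simp [hy, hyA]⟩
    simp [ind, hxA, hyA]; omega
  · have h1 : sw B y x ∩ A = insert x (B ∩ A) := by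
      ext e; simp only [mem_inter, mem_sw, mem_insert]
      constructor
      · rintro ⟨rfl | ⟨h1, h2⟩, h3⟩ <;> tauto
      · rintro (rfl | ⟨h2, h3⟩)
        · tauto
        · refine ⟨Or.inr ⟨?_, h2⟩, h3⟩
          rintro rfl; exact hyA h3
    rw [h1, card_insert_of_notMem (by simp [hx])]
    simp [ind, hxA, hyA]
  · have h1 : sw B y x ∩ A = (B ∩ A).erase y := by
      ext e; simp only [mem_inter, mem_sw, mem_erase]
      constructor
      · rintro ⟨rfl | ⟨h1, h2⟩, h3⟩ <;> tauto
      · rintro ⟨h1, h2, h3⟩; tauto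
    rw [h1, card_erase_of_mem (by simp [hy, hyA])]
    have : 0 < (B ∩ A).card := Finset.card_pos.mpr ⟨y, by simp [hy, hyA]⟩
    simp [ind, hxA, hyA]; omega
  · have h1 : sw B y x ∩ A = B ∩ A := by
      ext e; simp only [mem_inter, mem_sw]
      constructor
      · rintro ⟨rfl | ⟨h1, h2⟩, h3⟩ <;> tauto
      · rintro ⟨h2, h3⟩
        refine ⟨Or.inr ⟨?_, h2⟩, h3⟩
        rintro rfl; exact hyA h3
    rw [h1]; simp [ind, hxA, hyA]

theorem card_sw [Fintype α] {B : Finset α} {y x : α} (hy : y ∈ B) (hx : x ∉ B) : (sw B y x).card = B.card := by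
  have := card_sw_inter hy hx univ
  simpa [ind] using this

end basic

namespace Sys

variable {α ι : Type} [Fintype α] [DecidableEq α] (S : Sys α ι)

/-- bases of the system -/
def Bas (B : Finset α) : Prop := B.card = S.r ∧ ∀ i, (B ∩ S.H i).card ≤ S.c i

/-- the constraint `i` is tight for `B` -/
def Tight (B : Finset α) (i : ι) : Prop := (B ∩ S.H i).card = S.c i

variable {S}

theorem bas_sw_iff {B : Finset α} (hB : S.Bas B) {y x : α} (hy : y ∈ B) (hx : x ∉ B) :
    S.Bas (sw B y x) ↔ ∀ i, S.Tight B i → x ∈ S.H i → y ∈ S.H i := by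
  constructor
  · rintro ⟨-, h⟩ i hi hxi
    by_contra hyi
    have h1 := card_sw_inter hy hx (S.H i)
    have h2 := h i
    simp only [Tight] at hi
    simp [ind, hxi, hyi] at h1
    omega
  · intro h
    refine ⟨by rw [card_sw hy hx]; exact hB.1, fun i => ?_⟩
    have h1 := card_sw_inter hy hx (S.H i)
    have h2 := hB.2 i
    by_cases hxi : x ∈ S.H i
    · by_cases hyi : y ∈ S.H i
      · simp [ind, hxi, hyi] at h1; omega
      · have : ¬ S.Tight B i := fun ht => hyi (h i ht hxi)
        simp only [Tight] at this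
        simp [ind, hxi, hyi] at h1; omega
    · have h3 : ind (S.H i) x = 0 := by simp [ind, hxi]
      omega

/-- two tight constraints determine a base up to a small part -/
theorem pair_tight {B : Finset α} (hB : S.Bas B) {i j : ι} (hij : i ≠ j)
    (hi : S.Tight B i) (hj : S.Tight B j) :
    S.H i ∩ S.H j ⊆ B ∧ B ⊆ S.H i ∪ S.H j ∧ (S.H i ∩ S.H j).card + S.r = S.c i + S.c j := by
  have hc := S.cross i j hij
  simp only [Tight] at hi hj
  have h1 : (B ∩ S.H i).card + (B ∩ S.H j).card =
      (B ∩ (S.H i ∪ S.H j)).card + (B ∩ (S.H i ∩ S.H j)).card := by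
    rw [card_eq_ind, card_eq_ind, card_eq_ind, card_eq_ind, ← sum_add_distrib, ← sum_add_distrib]
    refine sum_congr rfl fun e _ => ?_
    simp only [ind, mem_inter, mem_union]
    by_cases h1 : e ∈ B <;> by_cases h2 : e ∈ S.H i <;> by_cases h3 : e ∈ S.H j <;> simp [*]
  have h2 : (B ∩ (S.H i ∪ S.H j)).card ≤ B.card := card_le_card inter_subset_left
  have h3 : (B ∩ (S.H i ∩ S.H j)).card ≤ (S.H i ∩ S.H j).card := card_le_card inter_subset_right
  have hr := hB.1
  refine ⟨?_, ?_, by omega⟩
  · have : B ∩ (S.H i ∩ S.H j) = S.H i ∩ S.H j :=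
      eq_of_subset_of_card_le inter_subset_right (by omega)
    rw [← this]; exact inter_subset_left
  · have : B ∩ (S.H i ∪ S.H j) = B := eq_of_subset_of_card_le inter_subset_left (by omega)
    rw [← this]; exact inter_subset_right

theorem uniq {B : Finset α} (hB : S.Bas B) {i j : ι} {x : α} (hx : x ∉ B)
    (hi : S.Tight B i) (hj : S.Tight B j) (hxi : x ∈ S.H i) (hxj : x ∈ S.H j) : i = j := by
  by_contra hij
  exact hx ((pair_tight hB hij hi hj).1 (by simp [hxi, hxj]))

theorem cover {B : Finset α} (hB : S.Bas B) {i j : ι} {y : α} (hy : y ∈ B)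
    (hij : i ≠ j) (hi : S.Tight B i) (hj : S.Tight B j) (hyi : y ∉ S.H i) : y ∈ S.H j := by
  have := (pair_tight hB hij hi hj).2.1 hy
  simp only [mem_union] at this
  tauto

/-- symmetric exchange -/
theorem symex {B B' : Finset α} (hB : S.Bas B) (hB' : S.Bas B') {y : α} (hy : y ∈ B)
    (hy' : y ∉ B') : ∃ z ∈ B', z ∉ B ∧ S.Bas (sw B y z) ∧ S.Bas (sw B' z y) := by
  by_contra hcon
  push Not at hcon
  have hbal : ∀ A : Finset α, ((B \ B') ∩ A).card + (B' ∩ A).card =
      ((B' \ B) ∩ A).card + (B ∩ A).card := by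
    intro A
    rw [card_eq_ind, card_eq_ind, card_eq_ind, card_eq_ind, ← sum_add_distrib, ← sum_add_distrib]
    refine sum_congr rfl fun e _ => ?_
    simp only [ind, mem_inter, mem_sdiff]
    by_cases h1 : e ∈ B <;> by_cases h2 : e ∈ B' <;> by_cases h3 : e ∈ A <;> simp [*]
  by_cases hj : ∃ j, S.Tight B' j ∧ y ∈ S.H j
  · obtain ⟨j, hj, hyj⟩ := hj
    have hDj : 1 ≤ ((B \ B') ∩ S.H j).card :=
      card_pos_of_mem (e := y) (by simp [hy, hy', hyj])
    have hbj := hbal (S.H j)
    have hBj := hB.2 j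
    have hj2 := hj
    simp only [Tight] at hj2
    have hne : 0 < ((B' \ B) ∩ S.H j).card := by omega
    have key : ∀ z ∈ (B' \ B) ∩ S.H j, ∃ i, S.Tight B i ∧ z ∈ S.H i ∧ y ∉ S.H i := by
      intro z hz
      simp only [mem_inter, mem_sdiff] at hz
      obtain ⟨⟨hz1, hz2⟩, hz3⟩ := hz
      have h2 : S.Bas (sw B' z y) := by
        rw [bas_sw_iff hB' hz1 hy']
        intro i hi hyi
        have := uniq hB' hy' hi hj hyi hyj
        rw [this]; exact hz3
      have h1 : ¬ S.Bas (sw B y z) := fun h1 => hcon z hz1 hz2 h1 h2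
      rw [bas_sw_iff hB hy hz2] at h1
      push Not at h1
      exact h1
    obtain ⟨z0, hz0⟩ := Finset.card_pos.mp hne
    obtain ⟨i, hi, hzi, hyi⟩ := key z0 hz0
    have hsub : (B' \ B) ∩ S.H j ⊆ S.H i := by
      intro z hz
      obtain ⟨i', hi', hzi', hyi'⟩ := key z hz
      by_cases hii : i' = i
      · rw [← hii]; exact hzi'
      · exact absurd (cover hB hy hii hi' hi hyi') hyi
    have hij : i ≠ j := by
      rintro rfl; exact hyi hyj
    have hc := S.cross i j hij
    have h1 : ((B' \ B) ∩ S.H j).card + (B ∩ S.H i).card + (B ∩ S.H j).card ≤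
        (S.H i ∩ S.H j).card + B.card := by
      rw [card_eq_ind, card_eq_ind, card_eq_ind, card_eq_ind, card_eq_ind, ← sum_add_distrib,
        ← sum_add_distrib, ← sum_add_distrib]
      refine sum_le_sum fun e _ => ?_
      have hs := @hsub e
      simp only [ind, mem_inter, mem_sdiff] at hs ⊢
      by_cases h1 : e ∈ B <;> by_cases h2 : e ∈ B' <;> by_cases h3 : e ∈ S.H i <;>
        by_cases h4 : e ∈ S.H j <;> simp_all
    have hr := hB.1
    simp only [Tight] at hi
    omega
  · push Not at hj
    have key : ∀ z ∈ B' \ B, ∃ i, S.Tight B i ∧ z ∈ S.H i ∧ y ∉ S.H i := by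
      intro z hz
      simp only [mem_sdiff] at hz
      obtain ⟨hz1, hz2⟩ := hz
      have h2 : S.Bas (sw B' z y) := by
        rw [bas_sw_iff hB' hz1 hy']
        intro i hi hyi
        exact absurd hyi (hj i hi)
      have h1 : ¬ S.Bas (sw B y z) := fun h1 => hcon z hz1 hz2 h1 h2
      rw [bas_sw_iff hB hy hz2] at h1
      push Not at h1
      exact h1
    have hcardD : (B \ B').card = (B' \ B).card := by
      have := hbal univ
      simp only [inter_univ] at this
      have h1 := hB.1
      have h2 := hB'.1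
      omega
    have hD1 : 1 ≤ (B \ B').card := card_pos_of_mem (e := y) (by simp [hy, hy'])
    obtain ⟨z0, hz0⟩ := Finset.card_pos.mp (show 0 < (B' \ B).card by omega)
    obtain ⟨i, hi, hzi, hyi⟩ := key z0 hz0
    have hsub : (B' \ B) ⊆ S.H i := by
      intro z hz
      obtain ⟨i', hi', hzi', hyi'⟩ := key z hz
      by_cases hii : i' = i
      · rw [← hii]; exact hzi'
      · exact absurd (cover hB hy hii hi' hi hyi') hyi
    have hb := hbal (S.H i)
    rw [inter_eq_left.mpr hsub] at hb
    have hB'i := hB'.2 i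
    simp only [Tight] at hi
    have : (B \ B').card ≤ ((B \ B') ∩ S.H i).card := by omega
    have h3 : (B \ B') ∩ S.H i = B \ B' := eq_of_subset_of_card_le inter_subset_left this
    apply hyi
    have : y ∈ (B \ B') ∩ S.H i := by rw [h3]; simp [hy, hy']
    exact (mem_inter.mp this).2

end Sys

end Pool.Agent.MP405c89
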