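import Mathlib
import Pool.Agent.Lib.MP_405c89_co.Core

set_option autoImplicit false

/-!
Connectivity of the graph of good bases.
-/

namespace Pool.Agent.Lib.MP_405c89_co

open Finset

variable {α : Type*} [Fintype α] [DecidableEq α]

variable (D : SplitData α)

/-- `b` is feasible of degree one and the rest `m - b` is feasible of degree `q`. -/
structure Pair (q : ℤ) (m b : α → ℤ) : Prop where
  one : Feas D 1 b
  two : Feas D q (fun e => m e - b e)

def GoodStep (q : ℤ) (m b b' : α → ℤ) : Prop :=
  ∃ x y, x ≠ y ∧ b' = mv b x y ∧ Pair D q m b ∧ Pair D q m b'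

/-- The excess of `b` over `t`. -/
def exc (t b : α → ℤ) : ℤ := ∑ e, max (b e - t e) 0

omit [Fintype α] in
lemma sub_mv (m b : α → ℤ) (x y : α) :
    (fun e => m e - mv b x y e) = mv (fun e => m e - b e) y x := by
  funext e
  simp only [mv]
  ring

variable {D}

lemma pair_mv {q : ℤ} {m b : α → ℤ} (h : Pair D q m b) {x y : α} (hxy : x ≠ y)
    (hx : 1 ≤ b x) (hy : b y ≤ 0) (hxR : m x - b x ≤ q - 1) (hyR : 1 ≤ m y - b y)
    (hU : ∀ A ∈ D.F, ∑ e ∈ A, b e = 1 * D.rk A → y ∈ A → x ∈ A)
    (hL : ∀ A ∈ D.F, ∑ e ∈ A, (m e - b e) = q * D.rk A → x ∈ A → y ∈ A) :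
    Pair D q m (mv b x y) := by
  refine ⟨?_, ?_⟩
  · apply feas_mv D h.one hxy hx (by omega) _ hU
    exact h.two.supp y (by omega)
  · rw [sub_mv]
    apply feas_mv D h.two hxy.symm hyR (by simpa using hxR) _ hL
    exact h.one.supp x (by omega)

lemma pair_double {q : ℤ} (hq : 0 ≤ q) {m b : α → ℤ} (h : Pair D q m b) {a c a' c' : α}
    (haa : a ≠ a') (hcc : c ≠ c')
    (ha : 1 ≤ b a) (ha' : 1 ≤ b a') (hc : b c ≤ 0) (hc' : b c' ≤ 0)
    (haR : m a - b a ≤ q - 1) (haR' : m a' - b a' ≤ q - 1)
    (hcR : 1 ≤ m c - b c) (hcR' : 1 ≤ m c' - b c')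
    {A L : Finset α} (hA : A ∈ D.F) (tA : ∑ e ∈ A, b e = 1 * D.rk A)
    (nA : ((if c ∈ A then 1 else 0) + (if c' ∈ A then 1 else 0) : ℤ)
      = (if a ∈ A then 1 else 0) + (if a' ∈ A then 1 else 0))
    (hL : L ∈ D.F) (tL : ∑ e ∈ L, (m e - b e) = q * D.rk L)
    (nL : ((if c ∈ L then 1 else 0) + (if c' ∈ L then 1 else 0) : ℤ)
      = (if a ∈ L then 1 else 0) + (if a' ∈ L then 1 else 0)) :
    Pair D q m (mv (mv b a c) a' c') := by
  have hac : a ≠ c := by rintro rfl; omega
  have hac' : a ≠ c' := by rintro rfl; omega
  have ha'c : a' ≠ c := by rintro rfl; omega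
  have ha'c' : a' ≠ c' := by rintro rfl; omega
  refine ⟨?_, ?_⟩
  · apply saturated D _ (by norm_num) _ _ _ hA
    · rw [sum_mv, sum_mv, tA]
      linarith
    · rw [sum_mv, sum_mv, h.one.tot]
      simp
    · intro e
      have := h.one.nonneg e
      by_cases e1 : e = a
      · subst e1; simp [mv, hac, hac', haa]; omega
      · by_cases e2 : e = a'
        · subst e2; simp [mv, ha'c, ha'c', e1]; omega
        · simp only [mv, e1, e2, if_false]
          split_ifs <;> omega
    · intro e
      have := h.one.le e
      by_cases e1 : e = c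
      · subst e1; simp [mv, hcc, Ne.symm hac, Ne.symm ha'c]; omega
      · by_cases e2 : e = c'
        · subst e2; simp [mv, Ne.symm hac', Ne.symm ha'c', e1]; omega
        · simp only [mv, e1, e2, if_false]
          split_ifs <;> omega
    · intro e he
      by_cases e1 : e = c
      · subst e1; exact h.two.supp e (by omega)
      · by_cases e2 : e = c'
        · subst e2; exact h.two.supp e (by omega)
        · by_cases e3 : e = a
          · subst e3; exact h.one.supp e (by omega)
          · by_cases e4 : e = a'
            · subst e4; exact h.one.supp e (by omega)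
            · apply h.one.supp e
              simpa [mv, e1, e2, e3, e4] using he
  · rw [sub_mv, sub_mv]
    apply saturated D _ hq _ _ _ hL
    · rw [sum_mv, sum_mv, tL]
      linarith
    · rw [sum_mv, sum_mv, h.two.tot]
      simp
    · intro e
      have := h.two.nonneg e
      by_cases e1 : e = c
      · subst e1; simp [mv, hcc, Ne.symm hac, Ne.symm ha'c]; omega
      · by_cases e2 : e = c'
        · subst e2; simp [mv, Ne.symm hac', Ne.symm ha'c', e1]; omega
        · simp only [mv, e1, e2, if_false]
          split_ifs <;> omega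
    · intro e
      have := h.two.le e
      by_cases e1 : e = a
      · subst e1; simp [mv, hac, hac', haa]; omega
      · by_cases e2 : e = a'
        · subst e2; simp [mv, ha'c, ha'c', e1]; omega
        · simp only [mv, e1, e2, if_false]
          split_ifs <;> omega
    · intro e he
      by_cases e1 : e = c
      · subst e1; exact h.two.supp e (by omega)
      · by_cases e2 : e = c'
        · subst e2; exact h.two.supp e (by omega)
        · by_cases e3 : e = a
          · subst e3; exact h.one.supp e (by omega)
          · by_cases e4 : e = a'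
            · subst e4; exact h.one.supp e (by omega)
            · apply h.two.supp e
              simpa [mv, e1, e2, e3, e4] using he

end Pool.Agent.Lib.MP_405c89_co
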