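import Mathlib
import Pool.Agent.Lib.MP_405c89_co.Conn

set_option autoImplicit false

/-!
The descent lemma: any two good bases are joined by good exchanges.
-/

namespace Pool.Agent.Lib.MP_405c89_co

open Finset

variable {α : Type*} [Fintype α] [DecidableEq α]

variable {D : SplitData α}

omit [DecidableEq α] in
lemma exc_lt_of {t f f' : α → ℤ} (g : α → ℤ)
    (h : ∀ e, max (f' e - t e) 0 ≤ max (f e - t e) 0 + g e) (hg : ∑ e, g e < 0) :
    exc t f' < exc t f := by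
  unfold exc
  have h1 : ∑ e, max (f' e - t e) 0 ≤ ∑ e, (max (f e - t e) 0 + g e) :=
    Finset.sum_le_sum (fun e _ => h e)
  rw [Finset.sum_add_distrib] at h1
  linarith

omit [DecidableEq α] in
lemma exc_nonneg (t f : α → ℤ) : 0 ≤ exc t f :=
  Finset.sum_nonneg (fun e _ => le_max_right _ _)

lemma exc_mv_lt {t b : α → ℤ} {x y : α} (hx : t x < b x) (hy : b y < t y) :
    exc t (mv b x y) < exc t b := by
  have hxy : x ≠ y := by rintro rfl; omega
  apply exc_lt_of (fun e => if e = x then -1 else 0)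
  · intro e
    simp only [mv]
    by_cases h1 : e = x
    · subst h1
      simp only [hxy, if_true, if_false]
      omega
    · by_cases h2 : e = y
      · subst h2
        simp only [h1, if_true, if_false]
        omega
      · simp only [h1, h2, if_false]
        omega
  · simp

lemma exc_w_lt {t b : α → ℤ} {x x2 w y : α} (hx : t x < b x) (hx2 : t x2 < b x2)
    (hxx : x ≠ x2) (hy : b y < t y) (hwx : w ≠ x) (hwx2 : w ≠ x2) (hwy : w ≠ y) :
    exc t (mv (mv b x w) x2 y) < exc t b := by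
  have hxy : x ≠ y := by rintro rfl; omega
  have hxy2 : x2 ≠ y := by rintro rfl; omega
  apply exc_lt_of (fun e => (if e = x then -1 else 0) + (if e = x2 then -1 else 0)
    + (if e = w then 1 else 0))
  · intro e
    simp only [mv]
    by_cases h1 : e = x
    · subst h1
      simp only [hxy, hxx, Ne.symm hwx, if_true, if_false]
      omega
    · by_cases h2 : e = y
      · subst h2
        simp only [h1, Ne.symm hxy2, Ne.symm hwy, if_true, if_false]
        omega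
      · by_cases h3 : e = x2
        · subst h3
          simp only [h1, h2, Ne.symm hwx2, if_true, if_false]
          omega
        · simp only [h1, h2, h3, if_false]
          split_ifs <;> omega
  · simp [Finset.sum_add_distrib]

lemma exc_z_lt {t b : α → ℤ} {z y2 x2 y : α} (hx2 : t x2 < b x2)
    (hzx : z ≠ x2) (hyy : y2 ≠ y) (hy : b y < t y) (hy2 : b y2 < t y2)
    (hzy : z ≠ y) (hzy2 : z ≠ y2) :
    exc t (mv (mv b z y2) x2 y) < exc t b := by
  have hxy : x2 ≠ y := by rintro rfl; omega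
  have hxy2 : x2 ≠ y2 := by rintro rfl; omega
  apply exc_lt_of (fun e => (if e = x2 then -1 else 0))
  · intro e
    simp only [mv]
    by_cases h1 : e = x2
    · subst h1
      simp only [hxy, hxy2, Ne.symm hzx, if_true, if_false]
      omega
    · by_cases h2 : e = y
      · subst h2
        simp only [h1, Ne.symm hyy, Ne.symm hzy, if_true, if_false]
        omega
      · by_cases h3 : e = y2
        · subst h3
          simp only [h1, h2, Ne.symm hzy2, if_true, if_false]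
          omega
        · simp only [h1, h2, h3, if_false]
          split_ifs <;> omega
  · simp

/-- One round of descent in the exceptional configuration, `w`-type. -/
lemma wcase {q : ℤ} (hq : 0 ≤ q) {m b t : α → ℤ} (hb : Pair D q m b)
    {x x2 y w : α} {A1 A2 L1 : Finset α}
    (hA1 : A1 ∈ D.F) (tA1 : ∑ e ∈ A1, b e = 1 * D.rk A1)
    (hL1 : L1 ∈ D.F) (tL1 : ∑ e ∈ L1, (m e - b e) = q * D.rk L1)
    (uX : ∀ A ∈ D.F, ∑ e ∈ A, b e = 1 * D.rk A → x ∉ A → A = A2)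
    (lX : ∀ A ∈ D.F, ∑ e ∈ A, (m e - b e) = q * D.rk A → x ∈ A → A = L1)
    (hx : t x < b x) (hx2 : t x2 < b x2) (hy : b y < t y)
    (bx : 1 ≤ b x) (bx2 : 1 ≤ b x2) (by1 : b y ≤ 0)
    (Rx : m x - b x ≤ q - 1) (Rx2 : m x2 - b x2 ≤ q - 1) (Ry : 1 ≤ m y - b y)
    (bw : b w ≤ 0) (Rw : 1 ≤ m w - b w)
    (xA1 : x ∈ A1) (x2A1 : x2 ∉ A1) (yA1 : y ∈ A1) (wA1 : w ∉ A1) (wA2 : w ∉ A2)
    (xL1 : x ∈ L1) (x2L1 : x2 ∉ L1) (yL1 : y ∉ L1) (wL1 : w ∈ L1) :
    ∃ b', Relation.ReflTransGen (GoodStep D q m) b b' ∧ exc t b' < exc t b := by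
  have hxx : x ≠ x2 := by rintro rfl; exact x2A1 xA1
  have hwx : w ≠ x := by rintro rfl; omega
  have hwx2 : w ≠ x2 := by rintro rfl; omega
  have hwy : w ≠ y := by rintro rfl; exact wA1 yA1
  have hxy2 : x2 ≠ y := by rintro rfl; omega
  have p1 : Pair D q m (mv b x w) := by
    apply pair_mv hb hwx.symm bx bw Rx Rw
    · intro A hA tA hw
      by_contra hxA
      exact wA2 (uX A hA tA hxA ▸ hw)
    · intro A hA tA hxA
      exact (lX A hA tA hxA) ▸ wL1
  have p2 : Pair D q m (mv (mv b x w) x2 y) := by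
    apply pair_double hq hb hxx hwy bx bx2 bw by1 Rx Rx2 Rw Ry hA1 tA1 _ hL1 tL1 _
    · simp [xA1, x2A1, yA1, wA1]
    · simp [xL1, x2L1, yL1, wL1]
  refine ⟨mv (mv b x w) x2 y, ?_, exc_w_lt hx hx2 hxx hy hwx hwx2 hwy⟩
  exact Relation.ReflTransGen.trans
    (Relation.ReflTransGen.single ⟨x, w, hwx.symm, rfl, hb, p1⟩)
    (Relation.ReflTransGen.single ⟨x2, y, hxy2, rfl, p1, p2⟩)

/-- One round of descent in the exceptional configuration, `z`-type. -/
lemma zcase {q : ℤ} (hq : 0 ≤ q) {m b t : α → ℤ} (hb : Pair D q m b)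
    {z y2 x2 y : α} {A1 A2 L2 : Finset α}
    (hA1 : A1 ∈ D.F) (tA1 : ∑ e ∈ A1, b e = 1 * D.rk A1)
    (hL2 : L2 ∈ D.F) (tL2 : ∑ e ∈ L2, (m e - b e) = q * D.rk L2)
    (uY2 : ∀ A ∈ D.F, ∑ e ∈ A, b e = 1 * D.rk A → y2 ∈ A → A = A2)
    (lY2 : ∀ A ∈ D.F, ∑ e ∈ A, (m e - b e) = q * D.rk A → y2 ∉ A → A = L2)
    (hx2 : t x2 < b x2) (hy : b y < t y) (hy2 : b y2 < t y2)
    (bx2 : 1 ≤ b x2) (by1 : b y ≤ 0) (by2 : b y2 ≤ 0)
    (Rx2 : m x2 - b x2 ≤ q - 1) (Ry : 1 ≤ m y - b y) (Ry2 : 1 ≤ m y2 - b y2)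
    (bz : 1 ≤ b z) (Rz : m z - b z ≤ q - 1)
    (zA1 : z ∈ A1) (zA2 : z ∈ A2) (y2A1 : y2 ∉ A1) (x2A1 : x2 ∉ A1) (yA1 : y ∈ A1)
    (zL2 : z ∉ L2) (y2L2 : y2 ∉ L2) (x2L2 : x2 ∈ L2) (yL2 : y ∈ L2) :
    ∃ b', Relation.ReflTransGen (GoodStep D q m) b b' ∧ exc t b' < exc t b := by
  have hzy2 : z ≠ y2 := by rintro rfl; exact y2A1 zA1
  have hzx : z ≠ x2 := by rintro rfl; exact x2A1 zA1
  have hzy : z ≠ y := by rintro rfl; omega
  have hyy : y2 ≠ y := by rintro rfl; exact y2A1 yA1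
  have hxy2 : x2 ≠ y := by rintro rfl; omega
  have p1 : Pair D q m (mv b z y2) := by
    apply pair_mv hb hzy2 bz by2 Rz Ry2
    · intro A hA tA hyA
      exact (uY2 A hA tA hyA) ▸ zA2
    · intro A hA tA hzA
      by_contra hyA
      exact zL2 (lY2 A hA tA hyA ▸ hzA)
  have p2 : Pair D q m (mv (mv b z y2) x2 y) := by
    apply pair_double hq hb hzx hyy bz bx2 by2 by1 Rz Rx2 Ry2 Ry hA1 tA1 _ hL2 tL2 _
    · simp [zA1, y2A1, x2A1, yA1]
    · simp [zL2, y2L2, x2L2, yL2]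
  refine ⟨mv (mv b z y2) x2 y, ?_, exc_z_lt hx2 hzx hyy hy hy2 hzy hzy2⟩
  exact Relation.ReflTransGen.trans
    (Relation.ReflTransGen.single ⟨z, y2, hzy2, rfl, hb, p1⟩)
    (Relation.ReflTransGen.single ⟨x2, y, hxy2, rfl, p1, p2⟩)

end Pool.Agent.Lib.MP_405c89_co
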