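import Pool.Agent.Lib.MP_405c89_co.Main

set_option autoImplicit false
set_option linter.unusedSectionVars false

/-!
The detour around the obstruction, and White's conjecture for systems.
-/

namespace Pool.Agent.MP405c89

open Finset

variable {α ι κ : Type} [Fintype α] [DecidableEq α] [DecidableEq κ]

namespace Sys

variable {S : Sys α ι}

theorem Reach.sameU {K : Finset κ} {T T1 T' : κ → Finset α} (h : S.Reach K T T1)
    (hU : SameU K T T') : SameU K T1 T' := by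
  intro A
  rw [h.sum (Finset.Subset.refl _) A]
  exact hU A

theorem cnt7 (H1 H2 H3 H4 : Finset α) {y : α} (hy1 : y ∈ H1) (hy3 : y ∈ H3) (hy2 : y ∉ H2)
    (hy4 : y ∉ H4) (hu : ∀ u, u ∈ H1 → u ∈ H2 → u ∉ H3 → u ∈ H4)
    (hv : ∀ v, v ∈ H3 → v ∈ H4 → v ∉ H1 → v ∈ H2) :
    (H1 ∩ H2).card + (H3 ∩ H4).card + 1 ≤ (H1 ∩ H3).card + (H2 ∩ H4).card := by
  have hc : ({y} : Finset α).card = 1 := by simp
  rw [← hc, card_eq_ind, card_eq_ind, card_eq_ind, card_eq_ind, card_eq_ind,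
    ← sum_add_distrib, ← sum_add_distrib, ← sum_add_distrib]
  refine sum_le_sum fun e _ => ?_
  have h1 := hu e
  have h2 := hv e
  clear hu hv hc
  simp only [ind, mem_inter, mem_singleton]
  by_cases hey : e = y
  · subst hey
    simp [hy1, hy2, hy3, hy4]
  · by_cases e1 : e ∈ H1 <;> by_cases e2 : e ∈ H2 <;> by_cases e3 : e ∈ H3 <;>
      by_cases e4 : e ∈ H4 <;> simp_all

/-- in an obstruction there is a detour element -/
theorem Obs.elem {K : Finset κ} {k0 : κ} (hk0 : k0 ∈ K) {T T' : κ → Finset α}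
    (hT : S.AllB T) (hU : SameU K T T') {i1 i2 i3 i4 : ι} {x1 x2 y3 : α}
    (h12 : i1 ≠ i2) (h34 : i3 ≠ i4) (ht1 : S.Tight (T k0) i1) (ht2 : S.Tight (T k0) i2)
    (hl3 : S.Low (K.erase k0) T i3) (hl4 : S.Low (K.erase k0) T i4)
    (hx1 : x1 ∈ T' k0 ∧ x1 ∉ T k0 ∧ x1 ∈ S.H i1 ∧ x1 ∈ S.H i4 ∧ x1 ∉ S.H i2 ∧ x1 ∉ S.H i3)
    (hx2 : x2 ∈ T' k0 ∧ x2 ∉ T k0 ∧ x2 ∈ S.H i2 ∧ x2 ∈ S.H i3 ∧ x2 ∉ S.H i1 ∧ x2 ∉ S.H i4)
    (hy3 : y3 ∉ T' k0 ∧ y3 ∈ T k0 ∧ y3 ∈ S.H i1 ∧ y3 ∈ S.H i3 ∧ y3 ∉ S.H i2 ∧ y3 ∉ S.H i4) :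
    (∃ u, u ∈ S.H i1 ∧ u ∈ S.H i2 ∧ u ∉ S.H i3 ∧ u ∉ S.H i4) ∨
      (∃ v, v ∈ S.H i3 ∧ v ∈ S.H i4 ∧ v ∉ S.H i1 ∧ v ∉ S.H i2) := by
  by_contra hcon
  push Not at hcon
  obtain ⟨hu, hv⟩ := hcon
  have h1 := cnt7 (S.H i1) (S.H i2) (S.H i3) (S.H i4) hy3.2.2.1 hy3.2.2.2.1 hy3.2.2.2.2.1
    hy3.2.2.2.2.2 hu hv
  obtain ⟨k, hk, -⟩ := hU.mem hk0 hx1.1 hx1.2.1
  have h2 := (pair_tight (hT k0) h12 ht1 ht2).2.2
  have h3 := (pair_tight (hT k) h34 (hl3.tight hT hk) (hl4.tight hT hk)).2.2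
  have h13 : i1 ≠ i3 := by
    rintro rfl; exact hx1.2.2.2.2.2 hx1.2.2.1
  have h24 : i2 ≠ i4 := by
    rintro rfl; exact hx2.2.2.2.2.2 hx2.2.2.1
  have h4 := S.cross i1 i3 h13
  have h5 := S.cross i2 i4 h24
  omega

theorem detour {K : Finset κ} {k0 : κ} (hk0 : k0 ∈ K) {T T' : κ → Finset α}
    (hT : S.AllB T) (hT' : S.AllB T') (hU : SameU K T T') (hobs : S.Obs K k0 T T') :
    ∃ T2, S.Reach K T T2 ∧ (T' k0 \ T2 k0).card = (T' k0 \ T k0).card ∧
      ¬ S.Obs K k0 T2 T' := by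
  obtain ⟨i1, i2, i3, i4, x1, x2, y3, y4, h12, h34, ⟨ht1, ht2, ht1', ht2'⟩,
    ⟨hl3, hl4, hl3', hl4'⟩, hx1, hx2, hy3, hy4⟩ := hobs
  rcases Obs.elem hk0 hT hU h12 h34 ht1 ht2 hl3 hl4 hx1 hx2 hy3 with
    ⟨u, hu1, hu2, hu3, hu4⟩ | ⟨v, hv3, hv4, hv1, hv2⟩
  · -- case U
    have huA : u ∈ T k0 := (pair_tight (hT k0) h12 ht1 ht2).1 (mem_inter.mpr ⟨hu1, hu2⟩)
    have huA' : u ∈ T' k0 := (pair_tight (hT' k0) h12 ht1' ht2').1 (mem_inter.mpr ⟨hu1, hu2⟩)
    obtain ⟨k, hk, hx1k⟩ := hU.mem hk0 hx1.1 hx1.2.1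
    have hB : S.Bas (sw (T k0) u x1) := by
      rw [bas_sw_iff (hT k0) huA hx1.2.1]
      intro i hi hxi
      have : i = i1 := uniq (hT k0) hx1.2.1 hi ht1 hxi hx1.2.2.1
      rw [this]; exact hu1
    have huk : ∀ l ∈ K.erase k0, u ∉ T l := by
      intro l hl hul
      exact hu4 (cover (hT l) hul h34 (hl3.tight hT hl) (hl4.tight hT hl) hu3)
    have hlow : ∀ j, u ∈ S.H j → x1 ∉ S.H j →
        ∑ l ∈ K.erase k0, (T l ∩ S.H j).card < (K.erase k0).card * S.c j := by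
      intro j huj hxj
      have h1 := sum_le_low (K0 := K.erase k0) hT j
      have h2 : ¬ S.Low (K.erase k0) T j := by
        intro hj
        have hj3 : i3 ≠ j := by rintro rfl; exact hu3 huj
        exact hxj (cover (hT k) hx1k hj3 (hl3.tight hT hk) (hj.tight hT hk) hx1.2.2.2.2.2)
      simp only [Low] at h2
      omega
    obtain ⟨T2, hR, hT2⟩ := lift hk0 hT huA hx1.2.1 hB ⟨k, hk, hx1k⟩ ⟨k, hk, huk k hk⟩ hlow
    have hAB2 := hR.allB hT
    have hU2 : SameU K T2 T' := hR.sameU hU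
    have hux : x1 ≠ u := by rintro rfl; exact hx1.2.1 huA
    refine ⟨T2, hR, ?_, ?_⟩
    · rw [hT2]
      have e1 := cnt6 (sw (T k0) u x1) (T' k0) univ
      have h3 : T' k0 \ sw (T k0) u x1 = insert u ((T' k0 \ T k0).erase x1) := by
        ext e
        simp only [mem_sdiff, mem_sw, mem_insert, mem_erase]
        constructor
        · rintro ⟨h4, h5⟩
          push Not at h5
          by_cases heu : e = u
          · exact Or.inl heu
          · exact Or.inr ⟨h5.1, h4, fun h6 => (h5.2 heu) h6⟩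
        · rintro (rfl | ⟨h4, h5, h6⟩)
          · refine ⟨huA', ?_⟩
            rintro (h7 | ⟨h7, -⟩)
            · exact hux h7.symm
            · exact h7 rfl
          · refine ⟨h5, ?_⟩
            rintro (h7 | ⟨-, h7⟩)
            · exact h4 h7
            · exact h6 h7
      rw [h3, card_insert_of_notMem (by simp [huA]), card_erase_of_mem (by simp [hx1])]
      have : 0 < (T' k0 \ T k0).card := Finset.card_pos.mpr ⟨x1, by simp [hx1]⟩
      omega
    · rintro ⟨j1, j2, j3, j4, -, -, -, -, -, hj34, -, ⟨hj3, hj4, hj3', hj4'⟩, -, -, -, -⟩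
      have hno4 : ¬ S.Low (K.erase k0) T2 i4 := by
        intro hh
        have e1 := hU2.split hk0 (S.H i4)
        have e2 := hU.split hk0 (S.H i4)
        have e3 := card_sw_inter huA hx1.2.1 (S.H i4)
        have e4 : ind (S.H i4) u = 0 := by simp [ind, hu4]
        have e5 : ind (S.H i4) x1 = 1 := by simp [ind, hx1.2.2.2.1]
        rw [← hT2] at e3
        simp only [Low] at hh hl4
        omega
      have hj3ne : i4 ≠ j3 := by rintro rfl; exact hno4 hj3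
      have hj4ne : i4 ≠ j4 := by rintro rfl; exact hno4 hj4
      obtain ⟨k', hk', hyk'⟩ := hU.symm.mem hk0 hy3.2.1 hy3.1
      have hyj3 : y3 ∈ S.H j3 :=
        cover (hT' k') hyk' hj3ne (hl4'.tight hT' hk') (hj3'.tight hT' hk') hy3.2.2.2.2.2
      have hyj4 : y3 ∈ S.H j4 :=
        cover (hT' k') hyk' hj4ne (hl4'.tight hT' hk') (hj4'.tight hT' hk') hy3.2.2.2.2.2
      have hy3T2 : y3 ∈ T2 k0 := by
        rw [hT2, mem_sw]
        right
        refine ⟨?_, hy3.2.1⟩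
        rintro rfl; exact hu3 hy3.2.2.2.1
      obtain ⟨l, hl, hyl⟩ := hU2.notMem hk0 hy3T2 hy3.1
      exact hj34 (uniq (hAB2 l) hyl (hj3.tight hAB2 hl) (hj4.tight hAB2 hl) hyj3 hyj4)
  · -- case V
    have hvA : v ∉ T k0 := by
      intro h
      exact hv2 (cover (hT k0) h h12 ht1 ht2 hv1)
    have hvA' : v ∉ T' k0 := by
      intro h
      exact hv2 (cover (hT' k0) h h12 ht1' ht2' hv1)
    obtain ⟨l, hl, hyl⟩ := hU.notMem hk0 hy3.2.1 hy3.1
    have hB : S.Bas (sw (T k0) y3 v) := by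
      rw [bas_sw_iff (hT k0) hy3.2.1 hvA]
      intro i hi hvi
      have hi2 : i2 ≠ i := by rintro rfl; exact hv2 hvi
      exact cover (hT k0) hy3.2.1 hi2 ht2 hi hy3.2.2.2.2.1
    have hvl : v ∈ T l := (pair_tight (hT l) h34 (hl3.tight hT hl) (hl4.tight hT hl)).1
      (mem_inter.mpr ⟨hv3, hv4⟩)
    have hlow : ∀ j, y3 ∈ S.H j → v ∉ S.H j →
        ∑ l ∈ K.erase k0, (T l ∩ S.H j).card < (K.erase k0).card * S.c j := by
      intro j hyj hvj
      have h1 := sum_le_low (K0 := K.erase k0) hT j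
      have h2 : ¬ S.Low (K.erase k0) T j := by
        intro hj
        have : j = i3 := uniq (hT l) hyl (hj.tight hT hl) (hl3.tight hT hl) hyj hy3.2.2.2.1
        rw [this] at hvj
        exact hvj hv3
      simp only [Low] at h2
      omega
    obtain ⟨T2, hR, hT2⟩ := lift hk0 hT hy3.2.1 hvA hB ⟨l, hl, hvl⟩ ⟨l, hl, hyl⟩ hlow
    have hAB2 := hR.allB hT
    have hU2 : SameU K T2 T' := hR.sameU hU
    refine ⟨T2, hR, ?_, ?_⟩
    · rw [hT2]
      congr 1
      ext e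
      simp only [mem_sdiff, mem_sw]
      constructor
      · rintro ⟨h4, h5⟩
        push Not at h5
        refine ⟨h4, fun h6 => h5.2 ?_ h6⟩
        rintro rfl; exact hy3.1 h4
      · rintro ⟨h4, h5⟩
        refine ⟨h4, ?_⟩
        rintro (h6 | ⟨-, h6⟩)
        · rw [h6] at h4; exact hvA' h4
        · exact h5 h6
    · rintro ⟨j1, j2, j3, j4, -, -, -, -, hj12, -, ⟨hj1, hj2, hj1', hj2'⟩, -, -, -, -, -⟩
      have hno1 : ¬ S.Tight (T2 k0) i1 := by
        intro hh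
        have e3 := card_sw_inter hy3.2.1 hvA (S.H i1)
        have e4 : ind (S.H i1) y3 = 1 := by simp [ind, hy3.2.2.1]
        have e5 : ind (S.H i1) v = 0 := by simp [ind, hv1]
        rw [← hT2] at e3
        simp only [Tight] at hh ht1
        omega
      have hj1ne : i1 ≠ j1 := by rintro rfl; exact hno1 hj1
      have hj2ne : i1 ≠ j2 := by rintro rfl; exact hno1 hj2
      have hxj1 : x2 ∈ S.H j1 := cover (hT' k0) hx2.1 hj1ne ht1' hj1' hx2.2.2.2.2.1
      have hxj2 : x2 ∈ S.H j2 := cover (hT' k0) hx2.1 hj2ne ht1' hj2' hx2.2.2.2.2.1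
      have hx2T2 : x2 ∉ T2 k0 := by
        rw [hT2, mem_sw]
        rintro (h6 | ⟨-, h6⟩)
        · rw [h6] at hx2; exact hv2 hx2.2.2.1
        · exact hx2.2.1 h6
      exact hj12 (uniq (hAB2 k0) hx2T2 hj1 hj2 hxj1 hxj2)

theorem good_step {K : Finset κ} {k0 : κ} (hk0 : k0 ∈ K) {T T' : κ → Finset α}
    (hT : S.AllB T) (hU : SameU K T T')
    (h : ∃ x ∈ T' k0 \ T k0, ∃ y ∈ T k0 \ T' k0, S.Bas (sw (T k0) y x) ∧
      ∀ j, y ∈ S.H j → x ∉ S.H j → ¬ S.Low (K.erase k0) T j) :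
    ∃ T1, S.Reach K T T1 ∧ (T' k0 \ T1 k0).card + 1 = (T' k0 \ T k0).card := by
  obtain ⟨x, hx, y, hy, hB, hlow⟩ := h
  rw [mem_sdiff] at hx hy
  obtain ⟨T1, hR, hT1⟩ := lift hk0 hT hy.1 hx.2 hB (hU.mem hk0 hx.1 hx.2)
    (hU.notMem hk0 hy.1 hy.2) (by
      intro j h1 h2
      have h3 := sum_le_low (K0 := K.erase k0) hT j
      have h4 := hlow j h1 h2
      simp only [Low] at h4
      omega)
  refine ⟨T1, hR, ?_⟩
  have h3 : T' k0 \ T1 k0 = (T' k0 \ T k0).erase x := by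
    rw [hT1]
    ext e
    simp only [mem_sdiff, mem_sw, mem_erase]
    constructor
    · rintro ⟨h4, h5⟩
      push Not at h5
      refine ⟨h5.1, h4, fun h6 => h5.2 ?_ h6⟩
      rintro rfl; exact hy.2 h4
    · rintro ⟨h4, h5, h6⟩
      refine ⟨h5, ?_⟩
      rintro (h7 | ⟨-, h7⟩)
      · exact h4 h7
      · exact h6 h7
  rw [h3, card_erase_of_mem (by simp [hx])]
  have : 0 < (T' k0 \ T k0).card := Finset.card_pos.mpr ⟨x, by simp [hx]⟩
  omega

/-- the first entry can be made equal to the target's first entry -/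
theorem reach_first {K : Finset κ} {k0 : κ} (hk0 : k0 ∈ K) {T' : κ → Finset α}
    (hT' : S.AllB T') : ∀ (d : ℕ) (T : κ → Finset α), S.AllB T → SameU K T T' →
    (T' k0 \ T k0).card = d → ∃ T1, S.Reach K T T1 ∧ T1 k0 = T' k0 := by
  intro d
  induction d with
  | zero =>
    intro T hT hU hd
    refine ⟨T, Relation.ReflTransGen.refl, ?_⟩
    rw [Finset.card_eq_zero, Finset.sdiff_eq_empty_iff_subset] at hd
    symm
    apply Finset.eq_of_subset_of_card_le hd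
    rw [(hT k0).1, (hT' k0).1]
  | succ d ih =>
    intro T hT hU hd
    have hne : ∀ T2 : κ → Finset α, (T' k0 \ T2 k0).card = d + 1 → T2 k0 ≠ T' k0 := by
      intro T2 h1 h2
      rw [h2] at h1
      simp at h1
    have main : ∀ T2 : κ → Finset α, S.Reach K T T2 → (T' k0 \ T2 k0).card = d + 1 →
        (∃ x ∈ T' k0 \ T2 k0, ∃ y ∈ T2 k0 \ T' k0, S.Bas (sw (T2 k0) y x) ∧
          ∀ j, y ∈ S.H j → x ∉ S.H j → ¬ S.Low (K.erase k0) T2 j) →
        ∃ T1, S.Reach K T T1 ∧ T1 k0 = T' k0 := by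
      intro T2 hR hd2 hgood
      obtain ⟨T3, hR3, hd3⟩ := good_step hk0 (hR.allB hT) (hR.sameU hU) hgood
      obtain ⟨T4, hR4, h4⟩ := ih T3 (hR3.allB (hR.allB hT)) (hR3.sameU (hR.sameU hU)) (by omega)
      exact ⟨T4, (hR.trans hR3).trans hR4, h4⟩
    rcases good_or_obs hk0 hT hT' hU (hne T hd) with h | h
    · exact main T Relation.ReflTransGen.refl hd h
    · obtain ⟨T2, hR, hd2, hno⟩ := detour hk0 hT hT' hU h
      rw [hd] at hd2
      rcases good_or_obs hk0 (hR.allB hT) hT' (hR.sameU hU) (hne T2 hd2) with h | h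
      · exact main T2 hR hd2 h
      · exact absurd h hno

/-- White's conjecture for systems -/
theorem white (K : Finset κ) : ∀ (T T' : κ → Finset α), S.AllB T → S.AllB T' →
    (∀ k, k ∉ K → T k = T' k) → SameU K T T' → S.Reach K T T' := by
  induction K using Finset.induction_on with
  | empty =>
    intro T T' _ _ h _
    have : T = T' := funext fun k => h k (by simp)
    rw [this]
    exact Relation.ReflTransGen.refl
  | insert k0 K hk0 ih =>
    intro T T' hT hT' hout hU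
    have hmem : k0 ∈ insert k0 K := mem_insert_self _ _
    obtain ⟨T1, hR, h1⟩ := reach_first hmem hT' _ T hT hU rfl
    have hU1 : SameU (insert k0 K) T1 T' := hR.sameU hU
    have hU2 : SameU K T1 T' := by
      intro A
      have h2 := hU1.split hmem A
      rw [h1, erase_insert hk0] at h2
      omega
    have h3 := ih T1 T' (hR.allB hT) hT' (by
      intro k hk
      by_cases hkk : k = k0
      · rw [hkk]; exact h1
      · have h4 : k ∉ insert k0 K := by simp [hkk, hk]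
        rw [hR.outside h4]
        exact hout k h4) hU2
    exact hR.trans (h3.mono (subset_insert _ _))

end Sys

end Pool.Agent.MP405c89
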