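import Pool.Agent.Lib.MP_405c89_co.Core

set_option autoImplicit false

/-!
A symmetric exchange between a base `B` meeting `H h` in `c h` elements and a base `B'` meeting it
in fewer elements, which moves an element of `H h` from `B` to `B'`.
-/

namespace Pool.Agent.MP405c89

open Finset

namespace Sys

variable {α ι : Type} [Fintype α] [DecidableEq α] {S : Sys α ι}

theorem cnt1 (B B' Hh Hi : Finset α) (hs1 : Hh ∩ Hi ⊆ B) (hs2 : B ⊆ Hh ∪ Hi) :
    (((B' \ B) \ Hh) ∩ Hi).card + (B ∩ Hi).card =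
      (B' ∩ Hi).card + (((B \ B') ∩ Hh) ∩ Hi).card + ((B \ B') \ Hh).card := by
  rw [card_eq_ind, card_eq_ind, card_eq_ind, card_eq_ind, card_eq_ind,
      ← sum_add_distrib, ← sum_add_distrib, ← sum_add_distrib]
  refine sum_congr rfl fun e _ => ?_
  have h1 := @hs1 e
  have h2 := @hs2 e
  clear hs1 hs2
  simp only [ind, mem_inter, mem_sdiff, mem_union] at h1 h2 ⊢
  by_cases e1 : e ∈ B <;> by_cases e2 : e ∈ B' <;> by_cases e3 : e ∈ Hi <;>
      by_cases e4 : e ∈ Hh <;> simp_all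

theorem cnt2 (B B' Hh Hj : Finset α) :
    (((B \ B') ∩ Hh) ∩ Hj).card + ((B \ B') \ Hh).card + (B' ∩ Hj).card + (B ∩ Hh).card ≤
        (((B' \ B) \ Hh) ∩ Hj).card + (Hh ∩ Hj).card + B.card := by
  rw [card_eq_ind, card_eq_ind, card_eq_ind, card_eq_ind, card_eq_ind,
        card_eq_ind, card_eq_ind, ← sum_add_distrib, ← sum_add_distrib, ← sum_add_distrib,
        ← sum_add_distrib, ← sum_add_distrib]
  refine sum_le_sum fun e _ => ?_
  simp only [ind, mem_inter, mem_sdiff]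
  by_cases e1 : e ∈ B <;> by_cases e2 : e ∈ B' <;> by_cases e3 : e ∈ Hj <;>
        by_cases e4 : e ∈ Hh <;> simp [e1, e2, e3, e4]

theorem cnt3 (B B' Hh : Finset α) :
    ((B' \ B) \ Hh).card + (B' ∩ Hh).card + B.card =
      ((B \ B') \ Hh).card + (B ∩ Hh).card + B'.card := by
  rw [card_eq_ind, card_eq_ind, card_eq_ind, card_eq_ind, card_eq_ind,
        card_eq_ind, ← sum_add_distrib, ← sum_add_distrib, ← sum_add_distrib,
        ← sum_add_distrib]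
  refine sum_congr rfl fun e _ => ?_
  simp only [ind, mem_inter, mem_sdiff]
  by_cases e1 : e ∈ B <;> by_cases e2 : e ∈ B' <;>
        by_cases e4 : e ∈ Hh <;> simp [e1, e2, e4]

theorem cnt4 (B B' Hh : Finset α) :
    (B ∩ Hh).card ≤ ((B \ B') ∩ Hh).card + (B' ∩ Hh).card := by
  rw [card_eq_ind, card_eq_ind, card_eq_ind, ← sum_add_distrib]
  refine sum_le_sum fun e _ => ?_
  simp only [ind, mem_inter, mem_sdiff]
  by_cases e1 : e ∈ B <;> by_cases e2 : e ∈ B' <;>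
      by_cases e4 : e ∈ Hh <;> simp [e1, e2, e4]

theorem exchE {B B' : Finset α} (hB : S.Bas B) (hB' : S.Bas B') {h : ι} (ht : S.Tight B h)
    (hlt : (B' ∩ S.H h).card < S.c h) :
    ∃ a ∈ B, a ∉ B' ∧ a ∈ S.H h ∧ ∃ b ∈ B', b ∉ B ∧ b ∉ S.H h ∧
      S.Bas (sw B a b) ∧ S.Bas (sw B' b a) := by
  by_contra hcon
  push Not at hcon
  set P := (B \ B') ∩ S.H h with hP
  set Q := (B' \ B) \ S.H h with hQ
  set z := ((B \ B') \ S.H h).card with hz
  have memP : ∀ a, a ∈ P ↔ (a ∈ B ∧ a ∉ B') ∧ a ∈ S.H h := by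
    intro a; simp [hP]
  have memQ : ∀ b, b ∈ Q ↔ (b ∈ B' ∧ b ∉ B) ∧ b ∉ S.H h := by
    intro a; simp [hQ]
  have hrB := hB.1
  have hrB' := hB'.1
  have ht2 := ht
  simp only [Tight] at ht2
  -- all pairs are bad
  have bad : ∀ a ∈ P, ∀ b ∈ Q, (∃ i, S.Tight B i ∧ b ∈ S.H i ∧ a ∉ S.H i) ∨
      (∃ j, S.Tight B' j ∧ a ∈ S.H j ∧ b ∉ S.H j) := by
    intro a ha b hb
    rw [memP] at ha
    rw [memQ] at hb
    obtain ⟨⟨ha1, ha2⟩, ha3⟩ := ha
    obtain ⟨⟨hb1, hb2⟩, hb3⟩ := hb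
    by_cases h1 : S.Bas (sw B a b)
    · right
      have h2 := hcon a ha1 ha2 ha3 b hb1 hb2 hb3 h1
      rw [bas_sw_iff hB' hb1 ha2] at h2
      push Not at h2
      exact h2
    · left
      rw [bas_sw_iff hB ha1 hb2] at h1
      push Not at h1
      exact h1
  -- counting facts
  have q1 : ∀ i, i ≠ h → S.Tight B i →
      (Q ∩ S.H i).card + S.c i = (B' ∩ S.H i).card + (P ∩ S.H i).card + z := by
    intro i hih hi
    obtain ⟨hs1, hs2, -⟩ := pair_tight hB (Ne.symm hih) ht hi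
    have h1 := cnt1 B B' (S.H h) (S.H i) hs1 hs2
    simp only [Tight] at hi
    rw [hi] at h1
    exact h1
  have q2 : ∀ j, S.Tight B' j → (P ∩ S.H j).card + z ≤ (Q ∩ S.H j).card := by
    intro j hj
    have hjh : h ≠ j := by
      rintro rfl
      simp only [Tight] at hj
      omega
    have hc := S.cross h j hjh
    have hj2 := hj
    simp only [Tight] at hj2
    have h1 := cnt2 B B' (S.H h) (S.H j)
    rw [← hP, ← hQ, ← hz] at h1
    omega
  have q3 : Q.card + (B' ∩ S.H h).card = z + S.c h := by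
    have h1 := cnt3 B B' (S.H h)
    rw [← hQ, ← hz] at h1
    omega
  have q4 : S.c h ≤ P.card + (B' ∩ S.H h).card := by
    have h1 := cnt4 B B' (S.H h)
    rw [← hP] at h1
    omega
  have hPne : 0 < P.card := by omega
  have hQne : 0 < Q.card := by omega
  -- step 1
  have st1 : ∀ b ∈ Q, ∃ i, S.Tight B i ∧ b ∈ S.H i := by
    by_contra hno
    push Not at hno
    obtain ⟨b0, hb0, hb0'⟩ := hno
    have key : ∀ a ∈ P, ∃ j, S.Tight B' j ∧ a ∈ S.H j ∧ b0 ∉ S.H j := by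
      intro a ha
      rcases bad a ha b0 hb0 with ⟨i, hi, hbi, -⟩ | h2
      · exact absurd hbi (hb0' i hi)
      · exact h2
    obtain ⟨a0, ha0⟩ := Finset.card_pos.mp hPne
    obtain ⟨j0, hj0, haj0, hbj0⟩ := key a0 ha0
    have hsub : P ⊆ S.H j0 := by
      intro a ha
      obtain ⟨j, hj, haj, hbj⟩ := key a ha
      by_cases hjj : j = j0
      · rw [← hjj]; exact haj
      · exact absurd (cover hB' ((memQ b0).1 hb0).1.1 hjj hj hj0 hbj) hbj0
    have h2 := q2 j0 hj0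
    rw [inter_eq_left.mpr hsub] at h2
    have h3 : Q ∩ S.H j0 = Q := eq_of_subset_of_card_le inter_subset_left (by omega)
    rw [← h3] at hb0
    exact hbj0 (mem_inter.mp hb0).2
  -- step 2
  have st2 : ∀ a ∈ P, ∃ j, S.Tight B' j ∧ a ∈ S.H j := by
    by_contra hno
    push Not at hno
    obtain ⟨a0, ha0, ha0'⟩ := hno
    have key : ∀ b ∈ Q, ∃ i, S.Tight B i ∧ b ∈ S.H i ∧ a0 ∉ S.H i := by
      intro b hb
      rcases bad a0 ha0 b hb with h2 | ⟨j, hj, haj, -⟩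
      · exact h2
      · exact absurd haj (ha0' j hj)
    obtain ⟨b0, hb0⟩ := Finset.card_pos.mp hQne
    obtain ⟨i0, hi0, hbi0, hai0⟩ := key b0 hb0
    have hsub : Q ⊆ S.H i0 := by
      intro b hb
      obtain ⟨i, hi, hbi, hai⟩ := key b hb
      by_cases hii : i = i0
      · rw [← hii]; exact hbi
      · exact absurd (cover hB ((memP a0).1 ha0).1.1 hii hi hi0 hai) hai0
    have hih : i0 ≠ h := by
      rintro rfl
      exact hai0 ((memP a0).1 ha0).2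
    have h2 := q1 i0 hih hi0
    rw [inter_eq_left.mpr hsub] at h2
    have h3 := hB'.2 i0
    obtain ⟨a2, ha2⟩ := Finset.card_pos.mp (show 0 < (P ∩ S.H i0).card by omega)
    rw [mem_inter] at ha2
    have key2 : ∀ b ∈ Q, ∃ j, S.Tight B' j ∧ a2 ∈ S.H j ∧ b ∉ S.H j := by
      intro b hb
      rcases bad a2 ha2.1 b hb with ⟨i, hi, hbi, hai⟩ | h4
      · have : i = i0 := uniq hB ((memQ b).1 hb).1.2 hi hi0 hbi (hsub hb)
        rw [this] at hai
        exact absurd ha2.2 hai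
      · exact h4
    obtain ⟨j1, hj1, haj1, hbj1⟩ := key2 b0 hb0
    have h5 := q2 j1 hj1
    have h6 : 1 ≤ (P ∩ S.H j1).card := card_pos_of_mem (e := a2) (by simp [ha2.1, haj1])
    obtain ⟨b3, hb3⟩ := Finset.card_pos.mp (show 0 < (Q ∩ S.H j1).card by omega)
    rw [mem_inter] at hb3
    obtain ⟨j3, hj3, haj3, hbj3⟩ := key2 b3 hb3.1
    have : j3 = j1 := uniq hB' ((memP a2).1 ha2.1).1.2 hj3 hj1 haj3 haj1
    rw [this] at hbj3
    exact hbj3 hb3.2
  -- combined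
  have bad' : ∀ a ∈ P, ∀ b ∈ Q, ∀ i j, S.Tight B i → b ∈ S.H i → S.Tight B' j → a ∈ S.H j →
      a ∈ S.H i → b ∉ S.H j := by
    intro a ha b hb i j hi hbi hj haj hai hbj
    rcases bad a ha b hb with ⟨i', hi', hbi', hai'⟩ | ⟨j', hj', haj', hbj'⟩
    · have : i' = i := uniq hB ((memQ b).1 hb).1.2 hi' hi hbi' hbi
      rw [this] at hai'
      exact hai' hai
    · have : j' = j := uniq hB' ((memP a).1 ha).1.2 hj' hj haj' haj
      rw [this] at hbj'
      exact hbj' hbj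
  have nonP : ∀ j, S.Tight B' j → ∀ a ∈ P, a ∈ S.H j → ∃ b ∈ Q, b ∈ S.H j := by
    intro j hj a ha haj
    have h5 := q2 j hj
    have h6 : 1 ≤ (P ∩ S.H j).card := card_pos_of_mem (e := a) (by simp [ha, haj])
    obtain ⟨b3, hb3⟩ := Finset.card_pos.mp (show 0 < (Q ∩ S.H j).card by omega)
    rw [mem_inter] at hb3
    exact ⟨b3, hb3.1, hb3.2⟩
  obtain ⟨a1, ha1⟩ := Finset.card_pos.mp hPne
  obtain ⟨i3, hi3, ha13⟩ := st2 a1 ha1
  obtain ⟨b2, hb2, hb23⟩ := nonP i3 hi3 a1 ha1 ha13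
  obtain ⟨i2, hi2, hb22⟩ := st1 b2 hb2
  have ha12 : a1 ∉ S.H i2 := fun hx => bad' a1 ha1 b2 hb2 i2 i3 hi2 hb22 hi3 ha13 hx hb23
  have c1 : ∀ b ∈ Q, b ∈ S.H i3 → b ∈ S.H i2 := by
    intro b hb hb3
    obtain ⟨i, hi, hbi⟩ := st1 b hb
    have hai : a1 ∉ S.H i := fun hx => bad' a1 ha1 b hb i i3 hi hbi hi3 ha13 hx hb3
    by_cases hii : i = i2
    · rw [← hii]; exact hbi
    · exact absurd (cover hB ((memP a1).1 ha1).1.1 hii hi hi2 hai) ha12
  have hi2h : i2 ≠ h := by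
    rintro rfl
    exact ((memQ b2).1 hb2).2 hb22
  have q1_2 := q1 i2 hi2h hi2
  have q2_3 := q2 i3 hi3
  have hB'2 := hB'.2 i2
  have hc1 : (Q ∩ S.H i3).card ≤ (Q ∩ S.H i2).card := by
    apply card_le_card
    intro b hb
    rw [mem_inter] at hb ⊢
    exact ⟨hb.1, c1 b hb.1 hb.2⟩
  have hP3 : 1 ≤ (P ∩ S.H i3).card := card_pos_of_mem (e := a1) (by simp [ha1, ha13])
  obtain ⟨a4, ha4⟩ := Finset.card_pos.mp (show 0 < (P ∩ S.H i2).card by omega)
  rw [mem_inter] at ha4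
  obtain ⟨ha4, ha42⟩ := ha4
  obtain ⟨i4, hi4, ha44⟩ := st2 a4 ha4
  have hb24 : b2 ∉ S.H i4 := bad' a4 ha4 b2 hb2 i2 i4 hi2 hb22 hi4 ha44 ha42
  have h34 : i3 ≠ i4 := by
    rintro rfl; exact hb24 hb23
  obtain ⟨b1, hb1, hb14⟩ := nonP i4 hi4 a4 ha4 ha44
  obtain ⟨i1, hi1, hb11⟩ := st1 b1 hb1
  have ha41 : a4 ∉ S.H i1 := fun hx => bad' a4 ha4 b1 hb1 i1 i4 hi1 hb11 hi4 ha44 hx hb14
  have h12 : i1 ≠ i2 := by
    rintro rfl; exact ha41 ha42
  have hi1h : i1 ≠ h := by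
    rintro rfl
    exact ((memQ b1).1 hb1).2 hb11
  have c2 : ∀ b ∈ Q, b ∈ S.H i4 → b ∈ S.H i1 := by
    intro b hb hb4
    obtain ⟨i, hi, hbi⟩ := st1 b hb
    have hai : a4 ∉ S.H i := fun hx => bad' a4 ha4 b hb i i4 hi hbi hi4 ha44 hx hb4
    by_cases hii : i = i1
    · rw [← hii]; exact hbi
    · exact absurd (cover hB ((memP a4).1 ha4).1.1 hii hi hi1 hai) ha41
  have c3 : ∀ a ∈ P, a ∈ S.H i2 → a ∈ S.H i4 := by
    intro a ha ha2
    obtain ⟨j, hj, haj⟩ := st2 a ha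
    have hbj : b2 ∉ S.H j := bad' a ha b2 hb2 i2 j hi2 hb22 hj haj ha2
    by_cases hjj : j = i4
    · rw [← hjj]; exact haj
    · exact absurd (cover hB' ((memQ b2).1 hb2).1.1 hjj hj hi4 hbj) hb24
  have hb13 : b1 ∉ S.H i3 := by
    intro hb13
    have := c1 b1 hb1 hb13
    exact h12 (uniq hB ((memQ b1).1 hb1).1.2 hi1 hi2 hb11 this)
  have c4 : ∀ a ∈ P, a ∈ S.H i1 → a ∈ S.H i3 := by
    intro a ha ha1'
    obtain ⟨j, hj, haj⟩ := st2 a ha
    have hbj : b1 ∉ S.H j := bad' a ha b1 hb1 i1 j hi1 hb11 hj haj ha1'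
    by_cases hjj : j = i3
    · rw [← hjj]; exact haj
    · exact absurd (cover hB' ((memQ b1).1 hb1).1.1 hjj hj hi3 hbj) hb13
  have hc2 : (Q ∩ S.H i4).card ≤ (Q ∩ S.H i1).card := by
    apply card_le_card
    intro b hb
    rw [mem_inter] at hb ⊢
    exact ⟨hb.1, c2 b hb.1 hb.2⟩
  have hc3 : (P ∩ S.H i2).card ≤ (P ∩ S.H i4).card := by
    apply card_le_card
    intro b hb
    rw [mem_inter] at hb ⊢
    exact ⟨hb.1, c3 b hb.1 hb.2⟩
  have hc4 : (P ∩ S.H i1).card ≤ (P ∩ S.H i3).card := by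
    apply card_le_card
    intro b hb
    rw [mem_inter] at hb ⊢
    exact ⟨hb.1, c4 b hb.1 hb.2⟩
  have q1_1 := q1 i1 hi1h hi1
  have q2_4 := q2 i4 hi4
  have hB'1 := hB'.2 i1
  have ht1 : S.Tight B' i1 := by
    simp only [Tight]; omega
  have hb21 : b2 ∉ S.H i1 := by
    intro hx
    exact h12 (uniq hB ((memQ b2).1 hb2).1.2 hi1 hi2 hx hb22)
  by_cases h14 : i1 = i4
  · rw [h14] at ha41; exact ha41 ha44
  · exact hb24 (cover hB' ((memQ b2).1 hb2).1.1 h14 ht1 hi4 hb21)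

end Sys

end Pool.Agent.MP405c89
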