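import Mathlib
import Pool.Agent.Lib.MP_405c89_co.Core

set_option autoImplicit false

/-!
Set level facts: bases, symmetric exchange and the transfer lemma.
-/

namespace Pool.Agent.Lib.MP_405c89_co

open Finset

variable {α : Type*} [Fintype α] [DecidableEq α]

/-- The bases of the split matroid. -/
structure IsB (D : SplitData α) (S : Finset α) : Prop where
  sub : S ⊆ D.E
  card : (S.card : ℤ) = D.r
  con : ∀ A ∈ D.F, ((S ∩ A).card : ℤ) ≤ D.rk A

variable {D : SplitData α}

/-- The indicator function of a set. -/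
def ind (S : Finset α) : α → ℤ := fun e => if e ∈ S then 1 else 0

omit [Fintype α] in
lemma sum_ind (S A : Finset α) : ∑ e ∈ A, ind S e = ((S ∩ A).card : ℤ) := by
  unfold ind
  rw [Finset.sum_boole, Finset.filter_mem_eq_inter, Finset.inter_comm]

lemma sum_ind_univ (S : Finset α) : ∑ e, ind S e = (S.card : ℤ) := by
  have := sum_ind S (Finset.univ : Finset α)
  simpa using this

omit [Fintype α] in
lemma ind_nonneg (S : Finset α) (e : α) : 0 ≤ ind S e := by
  unfold ind; split_ifs <;> simp

omit [Fintype α] in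
lemma ind_le (S : Finset α) (e : α) : ind S e ≤ 1 := by
  unfold ind; split_ifs <;> simp

omit [Fintype α] in
lemma ind_one {S : Finset α} {e : α} (h : e ∈ S) : ind S e = 1 := by simp [ind, h]

omit [Fintype α] in
lemma ind_zero {S : Finset α} {e : α} (h : e ∉ S) : ind S e = 0 := by simp [ind, h]

lemma feas_ind_iff (S : Finset α) : Feas D 1 (ind S) ↔ IsB D S := by
  constructor
  · intro h
    refine ⟨?_, ?_, ?_⟩
    · intro e he
      exact h.supp e (by rw [ind_one he]; norm_num)
    · have := h.tot
      rw [sum_ind_univ] at this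
      omega
    · intro A hA
      have := h.con A hA
      rw [sum_ind] at this
      omega
  · intro h
    refine ⟨ind_nonneg S, ind_le S, ?_, ?_, ?_⟩
    · intro e he
      by_contra hne
      exact he (ind_zero (fun h' => hne (h.sub h')))
    · rw [sum_ind_univ, h.card, one_mul]
    · intro A hA
      rw [sum_ind, one_mul]
      exact h.con A hA

/-- Two tight sets of an `r`-set. -/
lemma set_tight {S A A' : Finset α} (hc : (S.card : ℤ) = D.r) (hA : A ∈ D.F) (hA' : A' ∈ D.F)
    (hne : A ≠ A') (tA : ((S ∩ A).card : ℤ) = D.rk A) (tA' : ((S ∩ A').card : ℤ) = D.rk A')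
    (e : α) : (e ∉ A → e ∉ A' → e ∉ S) ∧ (e ∈ A → e ∈ A' → e ∈ S) := by
  have h := tight_inter D (k := 1) (f := ind S) (by rw [sum_ind_univ, hc, one_mul]) (by norm_num)
    (ind_nonneg S) (ind_le S) hA hA' hne (by rw [sum_ind, tA, one_mul])
    (by rw [sum_ind, tA', one_mul]) e
  constructor
  · intro h1 h2 h3
    have := h.1 h1 h2
    rw [ind_one h3] at this
    norm_num at this
  · intro h1 h2
    by_contra h3
    have := h.2 h1 h2
    rw [ind_zero h3] at this
    norm_num at this

/-- An `r`-set which is tight for one set is a base. -/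
lemma isB_of_tight {S A : Finset α} (hs : S ⊆ D.E) (hc : (S.card : ℤ) = D.r) (hA : A ∈ D.F)
    (tA : ((S ∩ A).card : ℤ) = D.rk A) : IsB D S := by
  rw [← feas_ind_iff]
  apply saturated D (by rw [sum_ind_univ, hc, one_mul]) (by norm_num)
    (ind_nonneg S) (ind_le S) _ hA (by rw [sum_ind, tA, one_mul])
  intro e he
  by_contra hne
  exact he (ind_zero (fun h' => hne (hs h')))

omit [Fintype α] in
lemma card_swap {S : Finset α} {a b : α} (ha : a ∈ S) (hb : b ∉ S) :
    (insert b (S.erase a)).card = S.card := by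
  rw [Finset.card_insert_of_notMem (by simp [hb]), Finset.card_erase_of_mem ha]
  have : 0 < S.card := Finset.card_pos.2 ⟨a, ha⟩
  omega

omit [Fintype α] in
lemma ind_swap {S : Finset α} {a b : α} (ha : a ∈ S) (hb : b ∉ S) :
    ind (insert b (S.erase a)) = mv (ind S) a b := by
  have hab : a ≠ b := by rintro rfl; exact hb ha
  funext e
  unfold mv
  by_cases h1 : e = a
  · subst h1
    simp [ind, ha, hab]
  · by_cases h2 : e = b
    · subst h2
      simp [ind, hb, h1]
    · simp [ind, h1, h2]

omit [Fintype α] in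
lemma card_swap_inter {S : Finset α} {a b : α} (ha : a ∈ S) (hb : b ∉ S) (A : Finset α) :
    (((insert b (S.erase a)) ∩ A).card : ℤ)
      = (S ∩ A).card - (if a ∈ A then 1 else 0) + (if b ∈ A then 1 else 0) := by
  rw [← sum_ind, ind_swap ha hb, sum_mv, sum_ind]

omit [Fintype α] in
lemma isB_swap {S : Finset α} (hS : IsB D S) {a b : α} (ha : a ∈ S) (hb : b ∉ S) (hbE : b ∈ D.E)
    (hT : ∀ A ∈ D.F, ((S ∩ A).card : ℤ) = D.rk A → b ∈ A → a ∈ A) :
    IsB D (insert b (S.erase a)) := by
  refine ⟨?_, ?_, ?_⟩
  · intro e he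
    simp only [Finset.mem_insert, Finset.mem_erase] at he
    rcases he with rfl | ⟨_, h⟩
    · exact hbE
    · exact hS.sub h
  · rw [card_swap ha hb]; exact hS.card
  · intro A hA
    rw [card_swap_inter ha hb]
    have h1 := hS.con A hA
    have h2 := hT A hA
    by_cases hbA : b ∈ A
    · by_cases haA : a ∈ A
      · simp only [hbA, haA, if_true]; omega
      · have h3 : ((S ∩ A).card : ℤ) ≠ D.rk A := fun h => haA (h2 h hbA)
        simp only [hbA, haA, if_true, if_false]; omega
    · by_cases haA : a ∈ A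
      · simp only [hbA, haA, if_true, if_false]; omega
      · simp only [hbA, haA, if_false]; omega

omit [Fintype α] in
/-- The counting inequality (C). -/
lemma countC {S S' A A' : Finset α} (hc : (S.card : ℤ) = D.r) (hA : A ∈ D.F) (hA' : A' ∈ D.F)
    (hne : A ≠ A') (tA : ((S ∩ A).card : ℤ) = D.rk A) (tA' : ((S' ∩ A').card : ℤ) = D.rk A') :
    (S \ A).card + ((A ∩ A') \ S').card ≤ ((S' ∩ A') \ A).card := by
  have h1 := Finset.card_inter_add_card_sdiff S A
  have h2 := Finset.card_inter_add_card_sdiff (S' ∩ A') A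
  have h3 := Finset.card_inter_add_card_sdiff (A ∩ A') S'
  have h4 := D.inter A hA A' hA' hne
  have h5 : (S' ∩ A') ∩ A = (A ∩ A') ∩ S' := by
    ext e; simp only [Finset.mem_inter]; tauto
  rw [h5] at h2
  omega

/-- Symmetric exchange. -/
lemma sym_exchange {S S' : Finset α} (hS : IsB D S) (hS' : IsB D S') {x : α} (hx : x ∈ S)
    (hx' : x ∉ S') : ∃ z, z ∈ S' ∧ z ∉ S ∧ IsB D (insert z (S.erase x)) ∧
      IsB D (insert x (S'.erase z)) := by
  -- it suffices to find `z` avoiding the blocking sets
  suffices h : ∃ z, z ∈ S' ∧ z ∉ S ∧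
      (∀ A ∈ D.F, ((S ∩ A).card : ℤ) = D.rk A → z ∈ A → x ∈ A) ∧
      (∀ A ∈ D.F, ((S' ∩ A).card : ℤ) = D.rk A → x ∈ A → z ∈ A) by
    obtain ⟨z, h1, h2, h3, h4⟩ := h
    exact ⟨z, h1, h2, isB_swap hS hx h2 (hS'.sub h1) h3, isB_swap hS' h1 hx' (hS.sub hx) h4⟩
  have uS : ∀ A ∈ D.F, ∀ A' ∈ D.F, ((S ∩ A).card : ℤ) = D.rk A → ((S ∩ A').card : ℤ) = D.rk A' →
      x ∉ A → x ∉ A' → A = A' := by
    intro A hA A' hA' tA tA' h1 h2
    by_contra hne
    exact (set_tight hS.card hA hA' hne tA tA' x).1 h1 h2 hx
  have uS' : ∀ A ∈ D.F, ∀ A' ∈ D.F, ((S' ∩ A).card : ℤ) = D.rk A →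
      ((S' ∩ A').card : ℤ) = D.rk A' → x ∈ A → x ∈ A' → A = A' := by
    intro A hA A' hA' tA tA' h1 h2
    by_contra hne
    exact hx' ((set_tight hS'.card hA hA' hne tA tA' x).2 h1 h2)
  have hcard : S.card = S'.card := by
    have h1 := hS.card
    have h2 := hS'.card
    omega
  by_cases hi : ∃ A ∈ D.F, ((S ∩ A).card : ℤ) = D.rk A ∧ x ∉ A
  · obtain ⟨A, hA, tA, xA⟩ := hi
    by_cases hj : ∃ L ∈ D.F, ((S' ∩ L).card : ℤ) = D.rk L ∧ x ∈ L
    · obtain ⟨L, hL, tL, xL⟩ := hj
      have hne : A ≠ L := by rintro rfl; exact xA xL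
      have hC := countC hS.card hA hL hne tA tL
      have : ∃ z, z ∈ (S' ∩ L) \ A ∧ z ∉ S := by
        by_contra hn
        push Not at hn
        have h1 : (S' ∩ L) \ A ⊆ (S \ A).erase x := by
          intro e he
          have h2 := hn e he
          simp only [Finset.mem_sdiff, Finset.mem_inter] at he
          simp only [Finset.mem_erase, Finset.mem_sdiff]
          refine ⟨?_, h2, he.2⟩
          rintro rfl
          exact hx' he.1.1
        have h2 := Finset.card_le_card h1
        rw [Finset.card_erase_of_mem (by simp [hx, xA])] at h2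
        have h3 : 0 < (S \ A).card := Finset.card_pos.2 ⟨x, by simp [hx, xA]⟩
        omega
      obtain ⟨z, hz, hzS⟩ := this
      simp only [Finset.mem_sdiff, Finset.mem_inter] at hz
      refine ⟨z, hz.1.1, hzS, ?_, ?_⟩
      · intro B hB tB zB
        by_contra hxB
        exact hz.2 (uS B hB A hA tB tA hxB xA ▸ zB)
      · intro B hB tB xB
        exact (uS' B hB L hL tB tL xB xL) ▸ hz.1.2
    · push Not at hj
      have : ∃ z, z ∈ S' \ A ∧ z ∉ S := by
        by_contra hn
        push Not at hn
        have h1 : S' \ A ⊆ (S \ A).erase x := by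
          intro e he
          have h2 := hn e he
          simp only [Finset.mem_sdiff] at he
          simp only [Finset.mem_erase, Finset.mem_sdiff]
          refine ⟨?_, h2, he.2⟩
          rintro rfl
          exact hx' he.1
        have h2 := Finset.card_le_card h1
        rw [Finset.card_erase_of_mem (by simp [hx, xA])] at h2
        have h3 : 0 < (S \ A).card := Finset.card_pos.2 ⟨x, by simp [hx, xA]⟩
        have h4 := Finset.card_inter_add_card_sdiff S A
        have h5 := Finset.card_inter_add_card_sdiff S' A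
        have h6 := hS'.con A hA
        omega
      obtain ⟨z, hz, hzS⟩ := this
      simp only [Finset.mem_sdiff] at hz
      refine ⟨z, hz.1, hzS, ?_, ?_⟩
      · intro B hB tB zB
        by_contra hxB
        exact hz.2 (uS B hB A hA tB tA hxB xA ▸ zB)
      · intro B hB tB xB
        exact absurd xB (hj B hB tB)
  · push Not at hi
    by_cases hj : ∃ L ∈ D.F, ((S' ∩ L).card : ℤ) = D.rk L ∧ x ∈ L
    · obtain ⟨L, hL, tL, xL⟩ := hj
      have : ∃ z, z ∈ S' ∩ L ∧ z ∉ S := by
        by_contra hn
        push Not at hn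
        have h1 : S' ∩ L ⊆ (S ∩ L).erase x := by
          intro e he
          have h2 := hn e he
          simp only [Finset.mem_inter] at he
          simp only [Finset.mem_erase, Finset.mem_inter]
          refine ⟨?_, h2, he.2⟩
          rintro rfl
          exact hx' he.1
        have h2 := Finset.card_le_card h1
        rw [Finset.card_erase_of_mem (by simp [hx, xL])] at h2
        have h3 : 0 < (S ∩ L).card := Finset.card_pos.2 ⟨x, by simp [hx, xL]⟩
        have h6 := hS.con L hL
        omega
      obtain ⟨z, hz, hzS⟩ := this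
      simp only [Finset.mem_inter] at hz
      refine ⟨z, hz.1, hzS, ?_, ?_⟩
      · intro B hB tB _
        exact hi B hB tB
      · intro B hB tB xB
        exact (uS' B hB L hL tB tL xB xL) ▸ hz.2
    · push Not at hj
      have : ∃ z, z ∈ S' ∧ z ∉ S := by
        by_contra hn
        push Not at hn
        have h1 : S' ⊆ S.erase x := by
          intro e he
          simp only [Finset.mem_erase]
          refine ⟨?_, hn e he⟩
          rintro rfl
          exact hx' he
        have h2 := Finset.card_le_card h1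
        rw [Finset.card_erase_of_mem hx] at h2
        have h3 : 0 < S.card := Finset.card_pos.2 ⟨x, hx⟩
        omega
      obtain ⟨z, hz, hzS⟩ := this
      refine ⟨z, hz, hzS, ?_, ?_⟩
      · intro B hB tB _
        exact hi B hB tB
      · intro B hB tB xB
        exact absurd xB (hj B hB tB)

end Pool.Agent.Lib.MP_405c89_co
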