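import Pool.Agent.Lib.MP_405c89_co.LemE

set_option autoImplicit false
set_option linter.unusedSectionVars false

/-!
Tuples of bases, exchange steps, and the lifting lemma.
-/

namespace Pool.Agent.MP405c89

open Finset

variable {α ι κ : Type} [Fintype α] [DecidableEq α] [DecidableEq κ]

namespace Sys

variable (S : Sys α ι)

/-- one symmetric exchange between two entries with index in `K` -/
def Step (K : Finset κ) (T T' : κ → Finset α) : Prop :=
  ∃ i ∈ K, ∃ j ∈ K, i ≠ j ∧ ∃ a b, a ∈ T i ∧ a ∉ T j ∧ b ∈ T j ∧ b ∉ T i ∧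
    S.Bas (sw (T i) a b) ∧ S.Bas (sw (T j) b a) ∧
    T' = Function.update (Function.update T i (sw (T i) a b)) j (sw (T j) b a)

/-- reachability by exchanges with indices in `K` -/
def Reach (K : Finset κ) : (κ → Finset α) → (κ → Finset α) → Prop :=
  Relation.ReflTransGen (S.Step K)

/-- all entries are bases -/
def AllB (T : κ → Finset α) : Prop := ∀ k, S.Bas (T k)

variable {S}

theorem Step.allB {K : Finset κ} {T T' : κ → Finset α} (h : S.Step K T T') (hT : S.AllB T) :
    S.AllB T' := by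
  obtain ⟨i, -, j, -, hij, a, b, -, -, -, -, h1, h2, rfl⟩ := h
  intro k
  by_cases hkj : k = j
  · subst hkj; simpa using h2
  · by_cases hki : k = i
    · subst hki; simpa [Function.update_of_ne hkj] using h1
    · simpa [Function.update_of_ne hkj, Function.update_of_ne hki] using hT k

theorem Step.outside {K : Finset κ} {T T' : κ → Finset α} (h : S.Step K T T') {k : κ}
    (hk : k ∉ K) : T' k = T k := by
  obtain ⟨i, hi, j, hj, hij, a, b, -, -, -, -, h1, h2, rfl⟩ := h
  have h1 : k ≠ j := fun h => hk (h ▸ hj)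
  have h2 : k ≠ i := fun h => hk (h ▸ hi)
  rw [Function.update_of_ne h1, Function.update_of_ne h2]

theorem Step.mono {K K' : Finset κ} (hKK : K ⊆ K') {T T' : κ → Finset α} (h : S.Step K T T') :
    S.Step K' T T' := by
  obtain ⟨i, hi, j, hj, hij, hrest⟩ := h
  exact ⟨i, hKK hi, j, hKK hj, hij, hrest⟩

theorem Step.sum {K K' : Finset κ} (hKK : K ⊆ K') {T T' : κ → Finset α} (h : S.Step K T T')
    (A : Finset α) : ∑ k ∈ K', (T' k ∩ A).card = ∑ k ∈ K', (T k ∩ A).card := by
  obtain ⟨i, hi, j, hj, hij, a, b, ha, ha', hb, hb', -, -, rfl⟩ := h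
  have hi' := hKK hi
  have hj' : j ∈ K'.erase i := mem_erase.mpr ⟨Ne.symm hij, hKK hj⟩
  rw [← add_sum_erase K' _ hi', ← add_sum_erase K' _ hi', ← add_sum_erase _ _ hj',
    ← add_sum_erase _ _ hj']
  have h1 := card_sw_inter ha hb' A
  have h2 := card_sw_inter hb ha' A
  have h3 : ∑ x ∈ (K'.erase i).erase j,
      (Function.update (Function.update T i (sw (T i) a b)) j (sw (T j) b a) x ∩ A).card =
      ∑ x ∈ (K'.erase i).erase j, (T x ∩ A).card := by
    refine sum_congr rfl fun k hk => ?_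
    simp only [mem_erase] at hk
    rw [Function.update_of_ne hk.1, Function.update_of_ne hk.2.1]
  rw [h3]
  simp only [Function.update_self, Function.update_of_ne hij]
  omega

theorem Reach.allB {K : Finset κ} {T T' : κ → Finset α} (h : S.Reach K T T') (hT : S.AllB T) :
    S.AllB T' := by
  induction h with
  | refl => exact hT
  | tail _ h2 ih => exact h2.allB ih

theorem Reach.outside {K : Finset κ} {T T' : κ → Finset α} (h : S.Reach K T T') {k : κ}
    (hk : k ∉ K) : T' k = T k := by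
  induction h with
  | refl => rfl
  | tail _ h2 ih => rw [h2.outside hk, ih]

theorem Reach.mono {K K' : Finset κ} (hKK : K ⊆ K') {T T' : κ → Finset α} (h : S.Reach K T T') :
    S.Reach K' T T' := by
  induction h with
  | refl => exact Relation.ReflTransGen.refl
  | tail _ h2 ih => exact ih.tail (h2.mono hKK)

theorem Reach.sum {K K' : Finset κ} (hKK : K ⊆ K') {T T' : κ → Finset α} (h : S.Reach K T T')
    (A : Finset α) : ∑ k ∈ K', (T' k ∩ A).card = ∑ k ∈ K', (T k ∩ A).card := by
  induction h with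
  | refl => rfl
  | tail _ h2 ih => rw [h2.sum hKK, ih]

theorem cnt5 (B Hi Hj : Finset α) {x y : α} (hx : x ∈ B) (hy : y ∉ B) (hxi : x ∉ Hi)
    (hxj : x ∉ Hj) (hyi : y ∈ Hi) (hyj : y ∈ Hj) :
    (B ∩ Hi).card + (B ∩ Hj).card + 2 ≤ B.card + (Hi ∩ Hj).card := by
  have h1 : ({x} : Finset α).card + ({y} : Finset α).card = 2 := by simp
  rw [← h1]
  rw [card_eq_ind, card_eq_ind, card_eq_ind, card_eq_ind, card_eq_ind, card_eq_ind,
    ← sum_add_distrib, ← sum_add_distrib, ← sum_add_distrib, ← sum_add_distrib]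
  refine sum_le_sum fun e _ => ?_
  simp only [ind, mem_inter, mem_singleton]
  by_cases hex : e = x
  · subst hex
    have : e ≠ y := by rintro rfl; exact hy hx
    simp [hx, hxi, hxj, this]
  · by_cases hey : e = y
    · subst hey
      simp [hy, hyi, hyj, hex]
    · by_cases e1 : e ∈ B <;> by_cases e2 : e ∈ Hi <;> by_cases e3 : e ∈ Hj <;>
        simp [e1, e2, e3, hex, hey]

/-- lifting, when some entry contains `x` but not `y` -/
theorem lift1 {K : Finset κ} {k0 : κ} (hk0 : k0 ∈ K) {T : κ → Finset α} (hT : S.AllB T)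
    {x y : α} (hy : y ∈ T k0) (hx : x ∉ T k0) (hA : S.Bas (sw (T k0) y x))
    {k : κ} (hk : k ∈ K.erase k0) (hxk : x ∈ T k) (hyk : y ∉ T k)
    (hlow : ∀ j, y ∈ S.H j → x ∉ S.H j →
      ∑ l ∈ K.erase k0, (T l ∩ S.H j).card < (K.erase k0).card * S.c j) :
    ∃ T', S.Reach K T T' ∧ T' k0 = sw (T k0) y x := by
  have hk' := mem_erase.mp hk
  by_cases hb : S.Bas (sw (T k) x y)
  · refine ⟨_, Relation.ReflTransGen.single ⟨k0, hk0, k, hk'.2, Ne.symm hk'.1, y, x, hy, hyk,
      hxk, hx, hA, hb, rfl⟩, ?_⟩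
    rw [Function.update_of_ne (Ne.symm hk'.1), Function.update_self]
  · rw [bas_sw_iff (hT k) hxk hyk] at hb
    push Not at hb
    obtain ⟨i, hi, hyi, hxi⟩ := hb
    have hl := hlow i hyi hxi
    have hl2 : ∃ l ∈ K.erase k0, (T l ∩ S.H i).card < S.c i := by
      apply Finset.exists_lt_of_sum_lt
      simpa using hl
    obtain ⟨l, hlK, hli⟩ := hl2
    have hl' := mem_erase.mp hlK
    have hkl : k ≠ l := by
      rintro rfl
      simp only [Tight] at hi
      omega
    obtain ⟨a, ha1, ha2, hai, b, hb1, hb2, hbi, hB1, hB2⟩ := exchE (hT k) (hT l) hi hli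
    set T1 := Function.update (Function.update T k (sw (T k) a b)) l (sw (T l) b a) with hT1
    have hstep : S.Step K T T1 :=
      ⟨k, hk'.2, l, hl'.2, hkl, a, b, ha1, ha2, hb1, hb2, hB1, hB2, rfl⟩
    have hT1k0 : T1 k0 = T k0 := by
      rw [hT1, Function.update_of_ne (Ne.symm hl'.1), Function.update_of_ne (Ne.symm hk'.1)]
    have hT1k : T1 k = sw (T k) a b := by
      rw [hT1, Function.update_of_ne hkl, Function.update_self]
    have hxa : x ≠ a := by rintro rfl; exact hxi hai
    have hyb : y ≠ b := by rintro rfl; exact hbi hyi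
    have hx1 : x ∈ T1 k := by rw [hT1k, mem_sw]; exact Or.inr ⟨hxa, hxk⟩
    have hy1 : y ∉ T1 k := by
      rw [hT1k, mem_sw]
      rintro (h | ⟨-, h⟩)
      · exact hyb h
      · exact hyk h
    have hb1 : S.Bas (sw (T1 k) x y) := by
      rw [bas_sw_iff (hstep.allB hT k) hx1 hy1]
      intro i' hi' hyi'
      by_contra hxi'
      have hc := cnt5 (T1 k) (S.H i) (S.H i') hx1 hy1 hxi hxi' hyi hyi'
      have hcs := card_sw_inter ha1 hb2 (S.H i)
      simp only [Tight] at hi hi'
      have h4 : ind (S.H i) a = 1 := by simp [ind, hai]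
      have h5 : ind (S.H i) b = 0 := by simp [ind, hbi]
      rw [← hT1k] at hcs
      have h6 := (hstep.allB hT k).1
      by_cases hii : i = i'
      · subst hii; omega
      · have h7 := S.cross i i' hii
        omega
    refine ⟨_, (Relation.ReflTransGen.single hstep).tail ⟨k0, hk0, k, hk'.2, Ne.symm hk'.1, y, x,
      ?_, hy1, hx1, ?_, ?_, hb1, rfl⟩, ?_⟩
    · rw [hT1k0]; exact hy
    · rw [hT1k0]; exact hx
    · rw [hT1k0]; exact hA
    · rw [Function.update_of_ne (Ne.symm hk'.1), Function.update_self, hT1k0]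

/-- the lifting lemma -/
theorem lift {K : Finset κ} {k0 : κ} (hk0 : k0 ∈ K) {T : κ → Finset α} (hT : S.AllB T)
    {x y : α} (hy : y ∈ T k0) (hx : x ∉ T k0) (hA : S.Bas (sw (T k0) y x))
    (hxk : ∃ k ∈ K.erase k0, x ∈ T k) (hyl : ∃ l ∈ K.erase k0, y ∉ T l)
    (hlow : ∀ j, y ∈ S.H j → x ∉ S.H j →
      ∑ l ∈ K.erase k0, (T l ∩ S.H j).card < (K.erase k0).card * S.c j) :
    ∃ T', S.Reach K T T' ∧ T' k0 = sw (T k0) y x := by
  obtain ⟨k, hk, hxk⟩ := hxk
  obtain ⟨l, hl, hyl⟩ := hyl
  by_cases hyk : y ∈ T k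
  · by_cases hxl : x ∈ T l
    · exact lift1 hk0 hT hy hx hA hl hxl hyl hlow
    · obtain ⟨z, hz1, hz2, hB1, hB2⟩ := symex (hT k) (hT l) hyk hyl
      have hkl : k ≠ l := by rintro rfl; exact hyl hyk
      have hk' := mem_erase.mp hk
      have hl' := mem_erase.mp hl
      set T1 := Function.update (Function.update T k (sw (T k) y z)) l (sw (T l) z y) with hT1
      have hstep : S.Step (K.erase k0) T T1 :=
        ⟨k, hk, l, hl, hkl, y, z, hyk, hyl, hz1, hz2, hB1, hB2, rfl⟩
      have hT1k0 : T1 k0 = T k0 := by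
        rw [hT1, Function.update_of_ne (Ne.symm hl'.1), Function.update_of_ne (Ne.symm hk'.1)]
      have hT1k : T1 k = sw (T k) y z := by
        rw [hT1, Function.update_of_ne hkl, Function.update_self]
      have hxy : x ≠ y := by rintro rfl; exact hx hy
      have hyz : y ≠ z := by rintro rfl; exact hz2 hyk
      have hx1 : x ∈ T1 k := by rw [hT1k, mem_sw]; exact Or.inr ⟨hxy, hxk⟩
      have hy1 : y ∉ T1 k := by
        rw [hT1k, mem_sw]
        rintro (h | ⟨h, -⟩)
        · exact hyz h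
        · exact h rfl
      have hsum := hstep.sum (Finset.Subset.refl _)
      obtain ⟨T', h1, h2⟩ := lift1 hk0 (hstep.allB hT) (x := x) (y := y)
        (by rw [hT1k0]; exact hy) (by rw [hT1k0]; exact hx) (by rw [hT1k0]; exact hA) hk hx1 hy1
        (by
          intro j hj1 hj2
          rw [hsum]
          exact hlow j hj1 hj2)
      refine ⟨T', Relation.ReflTransGen.head (hstep.mono (erase_subset _ _)) h1, ?_⟩
      rw [h2, hT1k0]
  · exact lift1 hk0 hT hy hx hA hk hxk hyk hlow

end Sys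

end Pool.Agent.MP405c89
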